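import Pool.Agent.W5h88.TP.Zet

/-!
# The Euler products, and the uniform bounds
-/

set_option autoImplicit false
set_option linter.unusedSectionVars false
set_option maxHeartbeats 400000

open MeasureTheory ProbabilityTheory Filter Topology Polynomial Complex
open NumberField IsDedekindDomain Pool.Agent.H921R2.TatePole
open Pool.Agent.R409.RA (fieldQuot finiteQuot)

namespace Pool.Agent.W5h88.TP

open Pool.Agent.W5h26.AO Pool.Agent.W5h26.EP
open Pool.Agent.W5h88.NB (Mdl nm_div nm_large)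

section

variable {K : Type} [Field K] [NumberField K] {R : ℕ} (F : Fin R → Fam K)

/-- Euler products -/
theorem euler_gen {x : HeightOneSpectrum (𝓞 K) → ℕ → ℝ} {B : ℝ} (hx : ∀ v m, |x v m| ≤ B)
    {good : HeightOneSpectrum (𝓞 K) → Prop} (hb : ∀ v, ¬ good v → ∀ m, x v m = 0) {w : ℂ}
    (hw : 1 < w.re) :
    HasProd (fun v : {v : HeightOneSpectrum (𝓞 K) // good v} =>
      cexp (∑' m : ℕ, (x v.1 m : ℂ) / (m + 1) * Ex w (v.1, m)))
      (cexp (∑' p : HeightOneSpectrum (𝓞 K) × ℕ, (x p.1 p.2 : ℂ) / (p.2 + 1) * Ex w p)) := by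
  have hs : Summable fun p : HeightOneSpectrum (𝓞 K) × ℕ =>
      (x p.1 p.2 : ℂ) / (p.2 + 1) * Ex w p := by
    refine Summable.of_norm_bounded ((sum_all (K := K) hw).mul_left B) fun p => ?_
    rw [norm_mul, ex_norm]
    exact mul_le_mul_of_nonneg_right (div_bd _ (hx _ _) _) (Real.exp_pos _).le
  have h1 := hs.hasSum.prod_fiberwise fun v => (hs.prod_factor v).hasSum
  have h2 : Function.support (fun v : HeightOneSpectrum (𝓞 K) =>
      ∑' m : ℕ, (x v m : ℂ) / (m + 1) * Ex w (v, m)) ⊆ {v | good v} := by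
    intro v hv
    by_contra h0
    apply hv
    simp [hb v h0]
  exact ((hasSum_subtype_iff_of_support_subset h2).2 h1).cexp

/-- the trace of the power of the Frobenius on `H^{2j}` -/
noncomputable def TT (j : ℕ) (v : HeightOneSpectrum (𝓞 K)) (h : QQ F v) (m : ℕ) : ℤ :=
  ∑ e : Fin R → Fin 3, if ∑ i, (e i : ℕ) = 2 * j then
    ∏ i, (if e i = 0 then 1 else if e i = 1 then tr ((F i).mb v (h i)) m else (nm v : ℤ) ^ m) else 0

theorem gd_good {G : Fam K} {v : HeightOneSpectrum (𝓞 K)} {h : G.H v} :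
    G.gd v h = 1 ↔ ((2 : 𝓞 K) ∉ v.asIdeal ∧ (G.mb v h).Separable) := by
  unfold Fam.gd
  rw [← char_two]
  split_ifs with h1
  · exact ⟨fun _ => h1, fun _ => rfl⟩
  · exact ⟨fun h0 => absurd h0 zero_ne_one, fun h0 => absurd h0 h1⟩

theorem tt_good {j : ℕ} {v : HeightOneSpectrum (𝓞 K)} {h : QQ F v} (hg : Gd F v h = 1) (m : ℕ) :
    (TT F j v h (m + 1) : ℝ) = (nm v : ℝ) ^ ((m + 1) * j) *
      ((R.choose j : ℝ) + pt F j v h m) := by
  classical
  have hs : 0 < √(nm v : ℝ) := Real.sqrt_pos.2 (nm_pos v)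
  have hsq : √(nm v : ℝ) ^ 2 = nm v := Real.sq_sqrt (nm_pos v).le
  have hterm : ∀ e : Fin R → Fin 3, ∑ i, (e i : ℕ) = 2 * j →
      ((∏ i, (if e i = 0 then 1 else if e i = 1 then tr ((F i).mb v (h i)) (m + 1) else
        (nm v : ℤ) ^ (m + 1)) : ℤ) : ℝ) = (nm v : ℝ) ^ ((m + 1) * j) *
        ∏ i, u (F i) (e i) v (h i) m := by
    intro e he
    have h1 : (nm v : ℝ) ^ ((m + 1) * j) = ∏ i, √(nm v : ℝ) ^ ((m + 1) * (e i : ℕ)) := by
      rw [Finset.prod_pow_eq_pow_sum, ← Finset.mul_sum, he]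
      rw [show (m + 1) * (2 * j) = 2 * ((m + 1) * j) by ring, pow_mul (√(nm v : ℝ)), hsq]
    rw [h1, ← Finset.prod_mul_distrib, Int.cast_prod]
    refine Finset.prod_congr rfl fun i _ => ?_
    have hgi := Gd_one F hg i
    have hgood := gd_good.1 hgi
    have ht : (F i).t v (h i) m = (tr ((F i).mb v (h i)) (m + 1) : ℝ) / √(nm v : ℝ) ^ (m + 1) := by
      unfold Fam.t tt gtr
      rw [if_pos ⟨(char_two v).2 hgood.1, hgood.2⟩]
      rfl
    generalize e i = x
    unfold u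
    fin_cases x
    · simp [hgi]
    · simp only [Fin.mk_one, Fin.isValue, one_ne_zero, ↓reduceIte, mul_one]
      rw [ht]
      field_simp
    · simp only [Fin.reduceFinMk, Fin.isValue, Fin.reduceEq, ↓reduceIte, Int.cast_pow,
        Int.cast_natCast]
      rw [hgi, mul_one]
      show (nm v : ℝ) ^ (m + 1) = √(nm v : ℝ) ^ ((m + 1) * 2)
      rw [mul_comm (m + 1) 2, pow_mul, hsq]
  unfold TT
  rw [← Finset.sum_filter, Int.cast_sum]
  have h2 : ∑ e ∈ Finset.univ.filter (fun e : Fin R → Fin 3 => ∑ i, (e i : ℕ) = 2 * j),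
      ((∏ i, (if e i = 0 then 1 else if e i = 1 then tr ((F i).mb v (h i)) (m + 1) else
        (nm v : ℤ) ^ (m + 1)) : ℤ) : ℝ) =
      ∑ e ∈ Finset.univ.filter (fun e : Fin R → Fin 3 => ∑ i, (e i : ℕ) = 2 * j),
        (nm v : ℝ) ^ ((m + 1) * j) * ∏ i, u (F i) (e i) v (h i) m :=
    Finset.sum_congr rfl fun e he => hterm e (Finset.mem_filter.1 he).2
  rw [h2, ← Finset.mul_sum]
  congr 1
  rw [← Finset.sum_filter_add_sum_filter_not _ (fun e : Fin R → Fin 3 => ∃ i, e i = 1), add_comm,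
    Finset.filter_filter, Finset.filter_filter]
  congr 1
  · have h3 : Finset.univ.filter (fun e : Fin R → Fin 3 =>
        ∑ i, (e i : ℕ) = 2 * j ∧ ¬ ∃ i, e i = 1) = S0 R j := by
      unfold S0
      refine Finset.filter_congr fun e _ => ?_
      rw [not_exists]
    rw [h3, ← s0_card, ← nsmul_one, ← Finset.sum_const]
    refine Finset.sum_congr rfl fun e he => Finset.prod_eq_one fun i _ => ?_
    have h4 := (Finset.mem_filter.1 he).2.2 i
    unfold u
    rw [if_neg h4]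
    exact Gd_one F hg i

/-- the product is smooth at `v` -/
def Good (v : HeightOneSpectrum (𝓞 K)) (h : QQ F v) : Prop :=
  (2 : 𝓞 K) ∉ v.asIdeal ∧ ∀ i, ((F i).mb v (h i)).Separable

theorem good_iff (hR : 0 < R) (v : HeightOneSpectrum (𝓞 K)) (h : QQ F v) :
    Gd F v h = 1 ↔ Good F v h := by
  constructor
  · intro h1
    exact ⟨(gd_good.1 (Gd_one F h1 ⟨0, hR⟩)).1, fun i => (gd_good.1 (Gd_one F h1 i)).2⟩
  · intro h1
    exact Finset.prod_eq_one fun i _ => gd_good.2 ⟨h1.1, h1.2 i⟩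

theorem ex_cpow (v : HeightOneSpectrum (𝓞 K)) (m j : ℕ) (s : ℂ) :
    Ex (s - j) (v, m) = (nm v : ℂ) ^ ((m + 1) * j) * ((nm v : ℂ) ^ (-s)) ^ (m + 1) := by
  have h0 := nmC_ne v
  have h1 : ((Real.log (nm v) : ℝ) : ℂ) = Complex.log (nm v : ℂ) := by
    rw [Complex.ofReal_log (Nat.cast_nonneg _), Complex.ofReal_natCast]
  have h2 : (nm v : ℂ) ^ ((m + 1) * j) = cexp ((((m + 1) * j : ℕ) : ℂ) * Complex.log (nm v : ℂ)) := by
    rw [Complex.exp_nat_mul, Complex.exp_log h0]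
  unfold Ex lg
  rw [Complex.cpow_def_of_ne_zero h0, ← Complex.exp_nat_mul, h2, ← Complex.exp_add]
  congr 1
  push_cast
  ring

/-- the L-function of `H^{2j}` -/
theorem euler_full (hR : 0 < R) (j : ℕ) (ω : Om F) {s : ℂ} (hs : j + 1 < s.re) :
    HasProd (fun v : {v : HeightOneSpectrum (𝓞 K) // Good F v (ω v)} =>
      cexp (∑' m : ℕ, (TT F j v.1 (ω v.1) (m + 1) : ℂ) * ((nm v.1 : ℂ) ^ (-s)) ^ (m + 1) / (m + 1)))
      (cexp (LL F j ω (s - j))) := by
  have hw : 1 < (s - j).re := by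
    rw [Complex.sub_re, Complex.natCast_re]
    linarith
  have h1 := euler_gen (x := fun v m => cc F j ω (v, m)) (fun v m => cc_bd F j ω (v, m))
    (good := fun v => Good F v (ω v)) (fun v hv m => by
      have h0 : Gd F v (ω v) = 0 := (Gd_01 F v (ω v)).resolve_right fun h => hv ((good_iff F hR _ _).1 h)
      unfold cc
      simp only
      rw [h0, pt_zero F h0, mul_zero, add_zero]) hw
  refine h1.congr_fun fun v => ?_
  have hg : Gd F v.1 (ω v.1) = 1 := (good_iff F hR _ _).2 v.2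
  refine congrArg cexp (tsum_congr fun m => ?_)
  rw [ex_cpow]
  have h2 := congrArg (fun x : ℝ => (x : ℂ)) (tt_good F (j := j) hg m)
  simp only [Complex.ofReal_intCast] at h2
  unfold cc
  simp only
  rw [hg, h2]
  push_cast
  ring

/-- the L-function of the complement of the classes of products of points -/
theorem euler_part (hR : 0 < R) {j : ℕ} (M : Mdl (HeightOneSpectrum (𝓞 K)) (Om F) (P (QQ F)))
    (hq : ∀ v, M.q v = nm v) (hτ : ∀ v m ω, M.τ v m ω = pt F j v (ω v) m) (ω : Om F) {s : ℂ}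
    (hs : j + 1 < s.re) :
    HasProd (fun v : {v : HeightOneSpectrum (𝓞 K) // Good F v (ω v)} =>
      cexp (∑' m : ℕ, (TT F j v.1 (ω v.1) (m + 1) - R.choose j * (nm v.1 : ℂ) ^ ((m + 1) * j)) *
        ((nm v.1 : ℂ) ^ (-s)) ^ (m + 1) / (m + 1)))
      (cexp (M.Lam ω (s - j))) := by
  have hw : 1 < (s - j).re := by
    rw [Complex.sub_re, Complex.natCast_re]
    linarith
  have h1 := euler_gen (x := fun v m => pt F j v (ω v) m) (fun v m => pt_bd F j v (ω v) m)
    (good := fun v => Good F v (ω v)) (fun v hv m => by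
      have h0 : Gd F v (ω v) = 0 := (Gd_01 F v (ω v)).resolve_right fun h => hv ((good_iff F hR _ _).1 h)
      exact pt_zero F h0 j m) hw
  have h4 : ∀ p : HeightOneSpectrum (𝓞 K) × ℕ, M.cf 0 ω p * cexp (-(s - j) * M.fr 0 p) =
      ((pt F j p.1 (ω p.1) p.2 : ℝ) : ℂ) / (p.2 + 1) * Ex (s - j) p := by
    intro p
    unfold Mdl.cf Mdl.fr Mdl.l Ex lg
    rw [hτ, hq]
    simp
  have h5 : M.Lam ω (s - j) = ∑' p : HeightOneSpectrum (𝓞 K) × ℕ,
      ((pt F j p.1 (ω p.1) p.2 : ℝ) : ℂ) / (p.2 + 1) * Ex (s - j) p := by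
    unfold Mdl.Lam
    exact tsum_congr h4
  rw [h5]
  refine h1.congr_fun fun v => ?_
  have hg : Gd F v.1 (ω v.1) = 1 := (good_iff F hR _ _).2 v.2
  refine congrArg cexp (tsum_congr fun m => ?_)
  rw [ex_cpow]
  have h2 := congrArg (fun x : ℝ => (x : ℂ)) (tt_good F (j := j) hg m)
  simp only [Complex.ofReal_intCast] at h2
  rw [h2]
  push_cast
  ring

/-- the set of the points with bounded logarithms -/
def SB (j : ℕ) (A B : ℝ) : Set (Om F) :=
  {ω | ∀ w : ℂ, 1 < w.re → w.re ≤ 2 → |w.im| ≤ A →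
    |(LL F j ω w).re + R.choose j * Real.log ‖w - 1‖| ≤ B}

theorem sb_large {j : ℕ} (M : Mdl (HeightOneSpectrum (𝓞 K)) (Om F) (P (QQ F)))
    (hq : ∀ v, M.q v = nm v) (hτ : ∀ v m ω, M.τ v m ω = pt F j v (ω v) m) (A : ℝ) {ε : ℝ}
    (hε : 0 < ε) : ∃ B : ℝ, 0 ≤ B ∧ 1 - ε ≤ (P (QQ F)).real (SB F j A B) := by
  have h1 : ∀ᵐ ω ∂(P (QQ F)), ω ∈ ⋃ N : ℕ, SB F j A N := by
    filter_upwards [cont_ae F M hq hτ] with ω hω
    obtain ⟨H, hH, hH0, hHe⟩ := hω
    have hK : IsCompact (Set.Icc (1 : ℝ) 2 ×ℂ Set.Icc (-A) A) := isCompact_Icc.reProdIm isCompact_Icc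
    have hc : ContinuousOn (fun w => Real.log ‖H w‖) (Set.Icc (1 : ℝ) 2 ×ℂ Set.Icc (-A) A) := by
      refine ContinuousOn.log ?_ fun w hw => norm_ne_zero_iff.2 (hH0 w hw.1.1)
      exact (hH.continuousOn.mono fun w hw => by
        show (1 / 2 : ℝ) < w.re
        have := hw.1.1
        linarith).norm
    obtain ⟨B, hB⟩ := hK.exists_bound_of_continuousOn hc
    obtain ⟨N, hN⟩ := exists_nat_ge B
    rw [Set.mem_iUnion]
    refine ⟨N, fun w hw1 hw2 hw3 => ?_⟩
    have h2 := hB w ⟨⟨hw1.le, hw2⟩, abs_le.1 hw3⟩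
    have hne : w - 1 ≠ 0 := by
      intro h0
      have := congrArg Complex.re (sub_eq_zero.1 h0)
      rw [Complex.one_re] at this
      linarith
    have h3 : Real.log ‖H w‖ = (LL F j ω w).re + R.choose j * Real.log ‖w - 1‖ := by
      rw [← hHe w hw1, norm_mul, norm_pow, Complex.norm_exp,
        Real.log_mul (pow_ne_zero _ (norm_ne_zero_iff.2 hne)) (Real.exp_pos _).ne', Real.log_exp,
        Real.log_pow]
      ring
    rw [Real.norm_eq_abs, h3] at h2
    exact h2.trans hN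
  have hmono : Monotone fun N : ℕ => SB F j A N := by
    intro N N' h ω hω w hw1 hw2 hw3
    exact (hω w hw1 hw2 hw3).trans (by exact_mod_cast h)
  have h2 := tendsto_measure_iUnion_atTop (μ := P (QQ F)) hmono
  have h3 : (P (QQ F)) (⋃ N : ℕ, SB F j A N) = 1 := by
    rw [← measure_univ (μ := P (QQ F))]
    refine measure_congr ?_
    rw [eventuallyEq_univ]
    exact h1
  rw [h3] at h2
  have h4 := (ENNReal.tendsto_toReal ENNReal.one_ne_top).comp h2
  rw [ENNReal.toReal_one] at h4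
  obtain ⟨N, hN⟩ := (h4.eventually (lt_mem_nhds (show 1 - ε < 1 by linarith))).exists
  exact ⟨N, Nat.cast_nonneg N, hN.le⟩

/-- the parameters -/
abbrev Pa : Type := (i : Fin R) → Fin ((F i).n + 2) → 𝓞 K

/-- reduction of the parameters -/
noncomputable def rh (v : HeightOneSpectrum (𝓞 K)) : Pa F →+ QQ F v where
  toFun h i k := Ideal.Quotient.mk v.asIdeal (h i k)
  map_zero' := by
    funext i k
    exact map_zero _
  map_add' h h' := by
    funext i k
    exact map_add _ _ _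

theorem rT_surj (T : Finset (HeightOneSpectrum (𝓞 K))) : Function.Surjective (rT (rh F) T) := by
  intro q
  choose h hh using fun i : Fin R => rhoT_surj T ((F i).n + 2) (fun v => q v i)
  refine ⟨h, ?_⟩
  funext v i
  exact congrFun (hh i) v

open Classical in
/-- **Uniform bounds for many members.** -/
theorem members {j : ℕ} (M : Mdl (HeightOneSpectrum (𝓞 K)) (Om F) (P (QQ F)))
    (hq : ∀ v, M.q v = nm v) (hτ : ∀ v m ω, M.τ v m ω = pt F j v (ω v) m) (A : ℝ) {ε : ℝ}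
    (hε : 0 < ε) : ∃ B : ℝ, 0 ≤ B ∧ ∀ δ : ℝ, 0 < δ → ∀ Fo : ℕ → Finset (Pa F),
      Pool.Agent.W5h26.AO.IsFolner Fo → ∀ᶠ k in atTop, (1 - ε) * ((Fo k).card : ℝ) ≤
        (((Fo k).filter fun h => ∀ w : ℂ, 1 + δ ≤ w.re → w.re ≤ 2 → |w.im| ≤ A →
          |(LL F j (fun v => rh F v h) w).re + R.choose j * Real.log ‖w - 1‖| ≤ B).card : ℝ) := by
  obtain ⟨B, hB0, hB⟩ := sb_large F M hq hτ A (ε := ε / 2) (by positivity)
  refine ⟨B + 1, by linarith, fun δ hδ Fo hF => ?_⟩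
  obtain ⟨T, hT⟩ := ll_close F j (σ := 1 + δ) (by linarith) (η := 1) one_pos
  refine dens_large (Q := QQ F) (ρ := rh F) (rT_surj F) hB (by linarith) (T := T) ?_ hF
  intro ω hω h hh w hw1 hw2 hw3
  have h1 := hω w (by linarith) hw2 hw3
  have h2 := hT (fun v => rh F v h) ω hh w hw1
  have h3 := (Complex.abs_re_le_norm _).trans h2
  rw [Complex.sub_re] at h3
  have h4 : (LL F j (fun v => rh F v h) w).re + R.choose j * Real.log ‖w - 1‖ =
      ((LL F j (fun v => rh F v h) w).re - (LL F j ω w).re) +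
        ((LL F j ω w).re + R.choose j * Real.log ‖w - 1‖) := by ring
  rw [h4]
  refine (abs_add_le _ _).trans ?_
  linarith

end

end Pool.Agent.W5h88.TP
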