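import Pool.Agent.W5h88.TP.Gen

/-!
# Families of curves: the averages which are needed
-/

set_option autoImplicit false
set_option linter.unusedSectionVars false
set_option maxHeartbeats 400000

open MeasureTheory ProbabilityTheory Filter Topology Polynomial
open NumberField IsDedekindDomain Pool.Agent.H921R2.TatePole
open Pool.Agent.R409.RA (fieldQuot finiteQuot)

namespace Pool.Agent.W5h88.TP

open Pool.Agent.W5h26.AO

/-- A family of curves -/
structure Fam (K : Type) [Field K] [NumberField K] where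
  g : ℕ
  r : ℕ
  n : ℕ
  a : (𝓞 K)[X]
  α : Fin r → 𝓞 K
  y : Fin r → 𝓞 K
  hn : n + 2 + r = 2 * g + 1
  monic : a.Monic
  deg : a.natDegree = 2 * g + 1
  inj : Function.Injective α
  pt : ∀ j, a.eval (α j) = y j ^ 2
  ne : ∀ j, y j ≠ 0

section

variable {K : Type} [Field K] [NumberField K]

namespace Fam

variable (F : Fam K)

/-- the residue parameters -/
abbrev H (v : HeightOneSpectrum (𝓞 K)) : Type := Fin (F.n + 2) → 𝓞 K ⧸ v.asIdeal

/-- the member -/
noncomputable def mb (v : HeightOneSpectrum (𝓞 K)) (h : F.H v) : (𝓞 K ⧸ v.asIdeal)[X] :=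
  mem (red v F.a) (fun j => Ideal.Quotient.mk v.asIdeal (F.α j)) h

/-- the normalised trace -/
noncomputable def t (v : HeightOneSpectrum (𝓞 K)) (h : F.H v) (m : ℕ) : ℝ := tt F.a F.α v h m

open Classical in
/-- the indicator of smoothness -/
noncomputable def gd (v : HeightOneSpectrum (𝓞 K)) (h : F.H v) : ℝ :=
  if ringChar (𝓞 K ⧸ v.asIdeal) ≠ 2 ∧ (F.mb v h).Separable then 1 else 0

theorem t_bd (v : HeightOneSpectrum (𝓞 K)) (h : F.H v) (m : ℕ) : |F.t v h m| ≤ 2 * F.g :=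
  tt_bd F.monic F.deg F.hn.le v h m

theorem gd_01 (v : HeightOneSpectrum (𝓞 K)) (h : F.H v) : F.gd v h = 0 ∨ F.gd v h = 1 := by
  unfold gd
  split_ifs
  · exact Or.inr rfl
  · exact Or.inl rfl

theorem gd_t (v : HeightOneSpectrum (𝓞 K)) (h : F.H v) (m : ℕ) :
    F.gd v h * F.t v h m = F.t v h m := by
  unfold gd t tt gtr
  by_cases h1 : ringChar (𝓞 K ⧸ v.asIdeal) ≠ 2 ∧ (F.mb v h).Separable
  · rw [if_pos h1, one_mul]
  · rw [if_neg h1, if_neg (by exact h1), zero_div, mul_zero]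

open Classical in
theorem bad_av : ∃ C : ℝ, 0 ≤ C ∧ ∀ v : HeightOneSpectrum (𝓞 K),
    av (fun h : F.H v => 1 - F.gd v h) ≤ C / nm v := by
  classical
  set d : 𝓞 K := 2 * ((F.n + 2 : ℕ) : 𝓞 K) * (∏ j, F.y j) with hdd
  have hd0 : d ≠ 0 := by
    refine mul_ne_zero (mul_ne_zero two_ne_zero ?_) ?_
    · exact_mod_cast Nat.succ_ne_zero (F.n + 1)
    · exact Finset.prod_ne_zero_iff.2 fun j _ => F.ne j
  have hS := finite_mem hd0
  obtain ⟨C1, hC1⟩ : ∃ C1 : ℝ, C1 = ∑ v ∈ hS.toFinset, (nm v : ℝ) := ⟨_, rfl⟩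
  have hC10 : 0 ≤ C1 := by
    rw [hC1]
    exact Finset.sum_nonneg fun v _ => (nm_pos v).le
  refine ⟨C1 + (2 * F.g + F.r), by positivity, fun v => ?_⟩
  have hnv := nm_pos v
  by_cases hv : d ∈ v.asIdeal
  · have h1 : av (fun h : F.H v => 1 - F.gd v h) ≤ 1 := by
      refine (av_mono (f' := fun _ => (1 : ℝ)) fun h => ?_).trans (av_const (X := F.H v) 1).le
      rcases F.gd_01 v h with h0 | h0 <;> rw [h0] <;> norm_num
    refine h1.trans ?_
    rw [le_div_iff₀ hnv, one_mul]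
    have h2 : (nm v : ℝ) ≤ C1 := by
      rw [hC1]
      exact Finset.single_le_sum (f := fun v : HeightOneSpectrum (𝓞 K) => (nm v : ℝ))
        (fun v _ => (nm_pos v).le) (hS.mem_toFinset.2 hv)
    have : (0 : ℝ) ≤ 2 * F.g + F.r := by positivity
    linarith
  · have hm : ∀ z : 𝓞 K, z ∣ d → z ∉ v.asIdeal := fun z hz h0 =>
      hv (Ideal.mem_of_dvd _ hz h0)
    have h2 : ringChar (𝓞 K ⧸ v.asIdeal) ≠ 2 := (char_two v).2 (hm 2 ((dvd_mul_right _ _).mul_right _))
    have h3 : ((F.n + 1 + 1 : ℕ) : 𝓞 K ⧸ v.asIdeal) ≠ 0 := by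
      have h1 : (((F.n + 2 : ℕ) : 𝓞 K)) ∉ v.asIdeal := by
        refine hm _ ?_
        exact (dvd_mul_left _ _).mul_right _
      rw [← Ideal.Quotient.eq_zero_iff_mem, map_natCast] at h1
      exact h1
    have h4 : ∀ j, Ideal.Quotient.mk v.asIdeal (F.y j) ≠ 0 := by
      intro j h1
      rw [Ideal.Quotient.eq_zero_iff_mem] at h1
      refine hm _ ?_ h1
      exact (Finset.dvd_prod_of_mem F.y (Finset.mem_univ j)).mul_left _
    have h5 : ∀ j, (red v F.a).eval (Ideal.Quotient.mk v.asIdeal (F.α j)) =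
        (Ideal.Quotient.mk v.asIdeal (F.y j)) ^ 2 := by
      intro j
      rw [eval_red, F.pt, map_pow]
    obtain ⟨e1, e2⟩ := red_deg F.monic F.deg v
    have h6 := bad_card (k := 𝓞 K ⧸ v.asIdeal) (m := F.n + 1) e1 e2 F.hn h3 h5 h4
    rw [card_q] at h6
    have h7 : av (fun h : F.H v => 1 - F.gd v h) =
        (((Finset.univ : Finset (F.H v)).filter fun h => ¬ (F.mb v h).Separable).card : ℝ) /
          (nm v : ℝ) ^ (F.n + 2) := by
      unfold av
      congr 1
      · rw [Finset.card_filter]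
        push_cast
        refine Finset.sum_congr rfl fun h _ => ?_
        unfold gd
        by_cases h8 : (F.mb v h).Separable
        · rw [if_pos ⟨h2, h8⟩, if_neg (not_not.2 h8)]
          norm_num
        · rw [if_neg fun h0 => h8 h0.2, if_pos h8]
          norm_num
      · rw [Fintype.card_fun, Fintype.card_fin, card_q]
        push_cast
        rfl
    rw [h7, div_le_div_iff₀ (by positivity) hnv]
    have h8 : ((((Finset.univ : Finset (F.H v)).filter fun h => ¬ (F.mb v h).Separable).card : ℕ) : ℝ) ≤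
        (2 * F.g + F.r) * (nm v : ℝ) ^ (F.n + 1) := by
      exact_mod_cast h6
    calc _ ≤ (2 * F.g + F.r) * (nm v : ℝ) ^ (F.n + 1) * nm v :=
          mul_le_mul_of_nonneg_right h8 hnv.le
      _ = (2 * F.g + F.r) * (nm v : ℝ) ^ (F.n + 2) := by ring
      _ ≤ (C1 + (2 * F.g + F.r)) * (nm v : ℝ) ^ (F.n + 2) := by
          refine mul_le_mul_of_nonneg_right ?_ (by positivity)
          linarith

open Classical in
/-- the averages of a family -/
theorem exists_K : ∃ C : ℝ, 0 ≤ C ∧ ∀ v : HeightOneSpectrum (𝓞 K),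
    |av (fun h : F.H v => F.t v h 0)| ≤ C * (nm v : ℝ) ^ (-(1 / 2) : ℝ) ∧
    |av (fun h : F.H v => F.t v h 0 ^ 2) - 1| ≤ C / nm v ∧
    av (fun h : F.H v => 1 - F.gd v h) ≤ C / nm v := by
  obtain ⟨C₁, h1, h2⟩ := Pool.Agent.W5h88.NB.exists_C F.monic F.deg F.hn F.inj F.pt F.ne
  obtain ⟨C₂, h3, h4⟩ := F.bad_av
  refine ⟨C₁ + C₂, by positivity, fun v => ?_⟩
  have hnv := nm_pos v
  have hcard : (Fintype.card (F.H v) : ℝ) = (nm v : ℝ) ^ (F.n + 2) := by
    rw [Fintype.card_fun, Fintype.card_fin, card_q]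
    push_cast
    rfl
  have e1 : av (fun h : F.H v => F.t v h 0) =
      (∑ h : Fin (F.n + 2) → 𝓞 K ⧸ v.asIdeal, tt F.a F.α v h 0) / (nm v : ℝ) ^ (F.n + 2) := by
    unfold av
    rw [hcard]
    rfl
  have e2 : av (fun h : F.H v => F.t v h 0 ^ 2) =
      (∑ h : Fin (F.n + 2) → 𝓞 K ⧸ v.asIdeal, tt F.a F.α v h 0 ^ 2) / (nm v : ℝ) ^ (F.n + 2) := by
    unfold av
    rw [hcard]
    rfl
  obtain ⟨h5, h6⟩ := h2 v
  refine ⟨?_, ?_, ?_⟩
  · rw [e1]
    refine h5.trans (mul_le_mul_of_nonneg_right (by linarith) (by positivity))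
  · rw [e2]
    exact h6.trans (div_le_div_of_nonneg_right (by linarith) hnv.le)
  · exact (h4 v).trans (div_le_div_of_nonneg_right (by linarith) hnv.le)

end Fam

end

end Pool.Agent.W5h88.TP
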