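import Pool.Agent.W5h88.NB.Den

/-!
# Products of finite probability spaces: generic statements
-/

set_option autoImplicit false
set_option linter.unusedSectionVars false
set_option maxHeartbeats 400000

open MeasureTheory ProbabilityTheory Filter Topology

namespace Pool.Agent.W5h88.TP

open Pool.Agent.W5h26.AO (mean mean_periodic mean_bound)
open Pool.Agent.W5h88.NB (int_of_bd mean_mono)

section gen

variable {V : Type} {Q : V → Type} [∀ v, Fintype (Q v)] [∀ v, Nonempty (Q v)]
  [∀ v, MeasurableSpace (Q v)] [∀ v, DiscreteMeasurableSpace (Q v)]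

/-- the average -/
noncomputable def av {X : Type} [Fintype X] (f : X → ℝ) : ℝ := (∑ x, f x) / (Fintype.card X : ℝ)

theorem card_pos' {X : Type} [Fintype X] [Nonempty X] : (0 : ℝ) < Fintype.card X := by
  exact_mod_cast Fintype.card_pos

theorem av_const {X : Type} [Fintype X] [Nonempty X] (c : ℝ) : av (fun _ : X => c) = c := by
  unfold av
  rw [Finset.sum_const, nsmul_eq_mul, Finset.card_univ, mul_div_cancel_left₀ _ card_pos'.ne']

theorem av_mono {X : Type} [Fintype X] {f f' : X → ℝ} (h : ∀ x, f x ≤ f' x) :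
    av f ≤ av f' :=
  div_le_div_of_nonneg_right (Finset.sum_le_sum fun x _ => h x) (Nat.cast_nonneg _)

theorem av_add {X : Type} [Fintype X] (f f' : X → ℝ) : av (fun x => f x + f' x) = av f + av f' := by
  unfold av
  rw [Finset.sum_add_distrib, add_div]

theorem av_sub {X : Type} [Fintype X] (f f' : X → ℝ) : av (fun x => f x - f' x) = av f - av f' := by
  unfold av
  rw [Finset.sum_sub_distrib, sub_div]

theorem av_mul {X : Type} [Fintype X] (c : ℝ) (f : X → ℝ) : av (fun x => c * f x) = c * av f := by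
  unfold av
  rw [← Finset.mul_sum, mul_div_assoc]

theorem av_sum {X : Type} [Fintype X] {ι : Type*} (S : Finset ι) (f : ι → X → ℝ) :
    av (fun x => ∑ i ∈ S, f i x) = ∑ i ∈ S, av (f i) := by
  unfold av
  rw [Finset.sum_comm, Finset.sum_div]

theorem av_bd {X : Type} [Fintype X] [Nonempty X] {f : X → ℝ} {B : ℝ} (h : ∀ x, |f x| ≤ B) :
    |av f| ≤ B := by
  rw [abs_le]
  constructor
  · rw [← av_const (X := X) (-B)]
    exact av_mono fun x => (abs_le.1 (h x)).1
  · rw [← av_const (X := X) B]
    exact av_mono fun x => (abs_le.1 (h x)).2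

theorem av_nonneg {X : Type} [Fintype X] {f : X → ℝ} (h : ∀ x, 0 ≤ f x) : 0 ≤ av f :=
  div_nonneg (Finset.sum_nonneg fun x _ => h x) (Nat.cast_nonneg _)

/-- averages of products -/
theorem av_prod {ι : Type} [Fintype ι] [DecidableEq ι] {X : ι → Type} [∀ i, Fintype (X i)] (f : ∀ i, X i → ℝ) :
    av (fun x : (i : ι) → X i => ∏ i, f i (x i)) = ∏ i, av (f i) := by
  unfold av
  rw [Finset.prod_div_distrib, Finset.prod_univ_sum, Fintype.piFinset_univ, Fintype.card_pi]
  push_cast
  rfl

variable (Q) in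
/-- the product measure -/
noncomputable def P : Measure ((v : V) → Q v) :=
  Measure.infinitePi fun v => uniformOn (Set.univ : Set (Q v))

instance PP : IsProbabilityMeasure (P Q) := by
  unfold P
  infer_instance

theorem un_sing {X : Type} [Fintype X] [MeasurableSpace X] [DiscreteMeasurableSpace X] (x : X) :
    (uniformOn (Set.univ : Set X)).real {x} = ((Fintype.card X : ℝ))⁻¹ := by
  rw [measureReal_def, uniformOn_univ, Measure.count_singleton, ENNReal.toReal_div,
    ENNReal.toReal_one, ENNReal.toReal_natCast, one_div]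

theorem int_ev (v : V) (φ : Q v → ℝ) : ∫ ω, φ (ω v) ∂(P Q) = av φ := by
  have h1 : (P Q).map (fun ω => ω v) = uniformOn (Set.univ : Set (Q v)) :=
    Measure.infinitePi_map_eval _ v
  have hφ : Measurable φ := Measurable.of_discrete
  have h2 : ∫ ω, φ (ω v) ∂(P Q) = ∫ x, φ x ∂(uniformOn (Set.univ : Set (Q v))) := by
    rw [← h1, integral_map (measurable_pi_apply v).aemeasurable hφ.aestronglyMeasurable]
  rw [h2, integral_fintype (Integrable.of_finite)]
  unfold av
  rw [Finset.sum_div]
  refine Finset.sum_congr rfl fun h _ => ?_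
  rw [un_sing, smul_eq_mul]
  field_simp

open Classical in
/-- integrals of functions of finitely many coordinates -/
theorem int_cyl (T : Finset V) (ψ : ((v : T) → Q v.1) → ℂ) :
    ∫ ω, ψ (T.restrict ω) ∂(P Q) = (∑ q, ψ q) / (Fintype.card ((v : T) → Q v.1) : ℂ) := by
  classical
  have hψ : Measurable ψ := Measurable.of_discrete
  have h1 : ∫ ω, ψ (T.restrict ω) ∂(P Q) = ∫ x, ψ x ∂(Measure.pi fun v : T =>
      uniformOn (Set.univ : Set (Q v.1))) :=
    integral_restrict_infinitePi (μ := fun v : V => uniformOn (Set.univ : Set (Q v)))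
      hψ.aestronglyMeasurable
  rw [h1, integral_fintype (Integrable.of_finite), Finset.sum_div]
  refine Finset.sum_congr rfl fun q _ => ?_
  have h2 : (Measure.pi fun v : T => uniformOn (Set.univ : Set (Q v.1))).real {q} =
      ((Fintype.card ((v : T) → Q v.1) : ℝ))⁻¹ := by
    rw [measureReal_def, Measure.pi_singleton, ENNReal.toReal_prod, Fintype.card_pi]
    push_cast
    rw [← Finset.prod_inv_distrib]
    refine Finset.prod_congr rfl fun v _ => ?_
    have h3 := un_sing (q v)
    rw [measureReal_def] at h3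
    exact h3
  rw [h2, Complex.real_smul]
  push_cast
  rw [div_eq_mul_inv, mul_comm]

open Classical in
/-- extension by an arbitrary point -/
noncomputable def ext (T : Finset V) (q : (v : T) → Q v.1) : (v : V) → Q v :=
  fun v => if h : v ∈ T then q ⟨v, h⟩ else Classical.arbitrary _

theorem ext_eq (T : Finset V) (q : (v : T) → Q v.1) {v : V} (hv : v ∈ T) :
    ext T q v = q ⟨v, hv⟩ := by
  unfold ext
  rw [dif_pos hv]

/-- a set which depends on the coordinates in `T` -/
def Cyl (T : Finset V) (A : Set ((v : V) → Q v)) : Prop :=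
  ∀ ω ω' : (v : V) → Q v, (∀ v ∈ T, ω v = ω' v) → ω ∈ A → ω' ∈ A

theorem cyl_meas {T : Finset V} {A : Set ((v : V) → Q v)} (hA : Cyl T A) : MeasurableSet A := by
  classical
  have : A = T.restrict ⁻¹' {q | ext T q ∈ A} := by
    ext1 ω
    have h1 : ∀ v ∈ T, ω v = ext T (T.restrict ω) v := fun v hv =>
      (ext_eq T (T.restrict ω) hv).symm
    exact ⟨hA _ _ h1, hA _ _ fun v hv => (h1 v hv).symm⟩
  rw [this]
  exact (Finset.measurable_restrict T) MeasurableSet.of_discrete

variable [∀ v, AddCommGroup (Q v)] {A : Type} [AddCommGroup A]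

/-- the reductions at the places of a finite set -/
def rT (ρ : (v : V) → A →+ Q v) (T : Finset V) : A →+ ((v : T) → Q v.1) :=
  AddMonoidHom.pi fun v : T => ρ v.1

open Classical in
/-- the density of a set which is defined by finitely many coordinates -/
theorem dens_cyl {ρ : (v : V) → A →+ Q v} {T : Finset V} (hs : Function.Surjective (rT ρ T))
    {E : Set ((v : V) → Q v)} (hE : Cyl T E)
    {F : ℕ → Finset A} (hF : Pool.Agent.W5h26.AO.IsFolner F) :
    Tendsto (fun j => mean (F j) fun h =>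
      ((E.indicator (fun _ => (1 : ℝ)) (fun v => ρ v h) : ℝ) : ℂ)) atTop
      (𝓝 (((P Q).real E : ℝ) : ℂ)) := by
  classical
  set χ : ((v : V) → Q v) → ℝ := E.indicator fun _ => (1 : ℝ) with hχ
  have hext : ∀ ω : (v : V) → Q v, χ ω = χ (ext T (T.restrict ω)) := by
    intro ω
    have h1 : ∀ v ∈ T, ω v = ext T (T.restrict ω) v := fun v hv =>
      (ext_eq T (T.restrict ω) hv).symm
    have h2 : ω ∈ E ↔ ext T (T.restrict ω) ∈ E :=
      ⟨hE _ _ h1, hE _ _ fun v hv => (h1 v hv).symm⟩
    rw [hχ]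
    by_cases h : ω ∈ E
    · rw [Set.indicator_of_mem h, Set.indicator_of_mem (h2.1 h)]
    · rw [Set.indicator_of_notMem h, Set.indicator_of_notMem fun h0 => h (h2.2 h0)]
  have h2 := mean_periodic hF (rT ρ T) hs fun q => (χ (ext T q) : ℂ)
  rw [← int_cyl] at h2
  have h3 : ∫ ω, (χ (ext T (T.restrict ω)) : ℂ) ∂(P Q) = (((P Q).real E : ℝ) : ℂ) := by
    simp_rw [← hext]
    rw [integral_complex_ofReal, hχ, integral_indicator_const _ (cyl_meas hE), smul_eq_mul, mul_one]
  rw [h3] at h2
  refine h2.congr fun j => ?_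
  unfold mean
  congr 1
  refine Finset.sum_congr rfl fun h _ => ?_
  show ((χ (ext T (rT ρ T h)) : ℝ) : ℂ) = ((χ (fun v => ρ v h) : ℝ) : ℂ)
  rw [hext fun v => ρ v h]
  rfl

open Classical in
/-- many elements in a set of large measure -/
theorem dens_large {ρ : (v : V) → A →+ Q v} (hs : ∀ T, Function.Surjective (rT ρ T))
    {S : Set ((v : V) → Q v)} {ε : ℝ} (hS : 1 - ε ≤ (P Q).real S) {ε' : ℝ} (hε : ε < ε')
    {G : A → Prop} {T : Finset V}
    (hG : ∀ ω ∈ S, ∀ h : A, (∀ v ∈ T, ρ v h = ω v) → G h)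
    {F : ℕ → Finset A} (hF : Pool.Agent.W5h26.AO.IsFolner F) :
    ∀ᶠ j in atTop, (1 - ε') * ((F j).card : ℝ) ≤ (((F j).filter G).card : ℝ) := by
  set E : Set ((v : V) → Q v) := {ω | ∃ ω' ∈ S, ∀ v ∈ T, ω v = ω' v} with hE
  have hEc : Cyl T E := by
    rintro ω ω' h ⟨ω'', h1, h2⟩
    exact ⟨ω'', h1, fun v hv => by rw [← h v hv, h2 v hv]⟩
  have hSE : S ⊆ E := fun ω hω => ⟨ω, hω, fun v _ => rfl⟩
  have h1 := (dens_cyl (hs T) hEc hF).norm
  rw [Complex.norm_real, Real.norm_eq_abs, abs_of_nonneg measureReal_nonneg] at h1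
  have h2 : 1 - ε' < (P Q).real E := by
    have := measureReal_mono hSE (measure_ne_top (P Q) E)
    linarith
  filter_upwards [h1.eventually (lt_mem_nhds h2)] with j hj
  have hc : (0 : ℝ) < (F j).card := by exact_mod_cast Finset.card_pos.2 (hF.nonempty j)
  unfold mean at hj
  rw [← Complex.ofReal_sum, norm_div, Complex.norm_natCast, Complex.norm_real, Real.norm_eq_abs,
    abs_of_nonneg (Finset.sum_nonneg fun x _ => Set.indicator_nonneg (fun _ _ => zero_le_one) _),
    lt_div_iff₀ hc] at hj
  refine hj.le.trans ?_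
  rw [Finset.card_filter]
  push_cast
  refine Finset.sum_le_sum fun h _ => ?_
  by_cases hh : (fun v => ρ v h) ∈ E
  · rw [Set.indicator_of_mem hh]
    obtain ⟨ω', h3, h4⟩ := hh
    rw [if_pos (hG ω' h3 h h4)]
  · rw [Set.indicator_of_notMem hh]
    split_ifs <;> norm_num

end gen

end Pool.Agent.W5h88.TP
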