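import Pool.Agent.W5h88.TP.Fam

/-!
# The random Euler product of the products of curves
-/

set_option autoImplicit false
set_option linter.unusedSectionVars false
set_option maxHeartbeats 400000

open MeasureTheory ProbabilityTheory Filter Topology Polynomial
open NumberField IsDedekindDomain Pool.Agent.H921R2.TatePole
open Pool.Agent.R409.RA (fieldQuot finiteQuot)

namespace Pool.Agent.W5h88.TP

open Pool.Agent.W5h26.AO
open Pool.Agent.W5h88.NB (Mdl nm_div nm_large)

/-- the choices of degrees in which a degree one occurs -/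
def S1 (R j : ℕ) : Finset (Fin R → Fin 3) :=
  Finset.univ.filter fun e => ∑ i, (e i : ℕ) = 2 * j ∧ ∃ i, e i = 1

/-- the choices of even degrees -/
def S0 (R j : ℕ) : Finset (Fin R → Fin 3) :=
  Finset.univ.filter fun e => ∑ i, (e i : ℕ) = 2 * j ∧ ∀ i, e i ≠ 1

theorem s0_card (R j : ℕ) : (S0 R j).card = R.choose j := by
  classical
  have hsum : ∀ e : Fin R → Fin 3, (∀ i, e i ≠ 1) →
      ∑ i, (e i : ℕ) = 2 * (Finset.univ.filter fun i => e i = 2).card := by
    intro e he
    rw [Finset.card_filter, Finset.mul_sum]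
    refine Finset.sum_congr rfl fun i _ => ?_
    have h1 := he i
    generalize e i = x at h1
    fin_cases x
    · rfl
    · exact absurd rfl h1
    · rfl
  have h1 : (S0 R j).card = ((Finset.univ : Finset (Fin R)).powersetCard j).card := by
    refine Finset.card_nbij' (fun e => Finset.univ.filter fun i => e i = 2)
      (fun s i => if i ∈ s then 2 else 0) ?_ ?_ ?_ ?_
    · intro e he
      have he' := (Finset.mem_filter.1 (Finset.mem_coe.1 he)).2
      rw [hsum e he'.2] at he'
      rw [Finset.mem_coe, Finset.mem_powersetCard]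
      refine ⟨Finset.subset_univ _, ?_⟩
      show (Finset.univ.filter fun i => e i = 2).card = j
      omega
    · intro s hs
      have hs' := (Finset.mem_powersetCard.1 (Finset.mem_coe.1 hs)).2
      have h2 : ∀ i, (if i ∈ s then (2 : Fin 3) else 0) ≠ 1 := by
        intro i
        split_ifs <;> decide
      rw [Finset.mem_coe]
      refine Finset.mem_filter.2 ⟨Finset.mem_univ _, ?_, h2⟩
      rw [hsum _ h2]
      congr 1
      rw [← hs']
      congr 1
      ext i
      rw [Finset.mem_filter]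
      constructor
      · rintro ⟨-, h3⟩
        by_contra h4
        rw [if_neg h4] at h3
        exact absurd h3 (by decide)
      · intro h3
        exact ⟨Finset.mem_univ _, if_pos h3⟩
    · intro e he
      have he' := (Finset.mem_filter.1 (Finset.mem_coe.1 he)).2
      funext i
      simp only [Finset.mem_filter, Finset.mem_univ, true_and]
      have h1 := he'.2 i
      generalize e i = x at h1
      fin_cases x
      · rfl
      · exact absurd rfl h1
      · rfl
    · intro s _
      ext i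
      simp only [Finset.mem_filter, Finset.mem_univ, true_and]
      constructor
      · intro h3
        by_contra h4
        rw [if_neg h4] at h3
        exact absurd h3 (by decide)
      · intro h3
        exact if_pos h3
  rw [h1, Finset.card_powersetCard, Finset.card_univ, Fintype.card_fin]

theorem s1_ne {R j : ℕ} (h0 : 0 < j) (h1 : j < R) : (S1 R j).Nonempty := by
  have h2 : ∀ k : ℕ, ∑ i ∈ Finset.range (k + 2),
      (if i < 2 then 1 else if i < j + 1 then 2 else 0) = 2 + 2 * min k (j - 1) := by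
    intro k
    induction k with
    | zero => simp [Finset.sum_range_succ]
    | succ k ih =>
      rw [show k + 1 + 2 = (k + 2) + 1 by ring, Finset.sum_range_succ, ih]
      rw [if_neg (by omega)]
      split_ifs with h
      · omega
      · omega
  refine ⟨fun i => if (i : ℕ) < 2 then 1 else if (i : ℕ) < j + 1 then 2 else 0, ?_⟩
  refine Finset.mem_filter.2 ⟨Finset.mem_univ _, ?_, ⟨⟨0, by omega⟩, by simp⟩⟩
  have h3 : ∀ i : Fin R, (((if (i : ℕ) < 2 then 1 else if (i : ℕ) < j + 1 then 2 else 0 : Fin 3)) : ℕ) =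
      (fun i : ℕ => if i < 2 then 1 else if i < j + 1 then 2 else 0) i := by
    intro i
    simp only
    split_ifs <;> rfl
  rw [Finset.sum_congr rfl fun i _ => h3 i,
    Fin.sum_univ_eq_sum_range (fun i : ℕ => if i < 2 then 1 else if i < j + 1 then 2 else 0) R]
  obtain ⟨k, rfl⟩ : ∃ k, R = k + 2 := ⟨R - 2, by omega⟩
  rw [h2 k]
  omega

theorem prod_small {ι : Type} [Fintype ι] {x b : ι → ℝ} (hb : ∀ i, 1 ≤ b i) (hx : ∀ i, |x i| ≤ b i)
    {ε : ℝ} (hε : 0 ≤ ε) (h : ∃ i, |x i| ≤ ε) : |∏ i, x i| ≤ ε * ∏ i, b i := by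
  classical
  obtain ⟨k, hk⟩ := h
  rw [Finset.abs_prod, ← Finset.mul_prod_erase _ _ (Finset.mem_univ k),
    ← Finset.mul_prod_erase _ b (Finset.mem_univ k)]
  have h1 : ∏ i ∈ Finset.univ.erase k, |x i| ≤ ∏ i ∈ Finset.univ.erase k, b i :=
    Finset.prod_le_prod (fun i _ => abs_nonneg _) fun i _ => hx i
  have h2 : 0 ≤ ∏ i ∈ Finset.univ.erase k, b i := Finset.prod_nonneg fun i _ => by linarith [hb i]
  refine mul_le_mul hk (h1.trans ?_) (Finset.prod_nonneg fun i _ => abs_nonneg _) hε
  exact le_mul_of_one_le_left h2 (hb k)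

section

variable {K : Type} [Field K] [NumberField K]

/-- the local factor -/
noncomputable def u (F : Fam K) (e : Fin 3) (v : HeightOneSpectrum (𝓞 K)) (h : F.H v) (m : ℕ) : ℝ :=
  if e = 1 then F.t v h m else F.gd v h

theorem u_bd (F : Fam K) (e : Fin 3) (v : HeightOneSpectrum (𝓞 K)) (h : F.H v) (m : ℕ) :
    |u F e v h m| ≤ 2 * F.g + 1 := by
  unfold u
  split_ifs
  · have := F.t_bd v h m
    linarith
  · have hg : (0 : ℝ) ≤ F.g := Nat.cast_nonneg _
    rcases F.gd_01 v h with h0 | h0 <;> rw [h0]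
    · rw [abs_zero]
      linarith
    · rw [abs_one]
      linarith

variable {R : ℕ} (F : Fin R → Fam K)

/-- the residue parameters of the product -/
abbrev QQ (v : HeightOneSpectrum (𝓞 K)) : Type := (i : Fin R) → (F i).H v

/-- the normalised trace on the part without the classes of the products of points -/
noncomputable def pt (j : ℕ) (v : HeightOneSpectrum (𝓞 K)) (h : QQ F v) (m : ℕ) : ℝ :=
  ∑ e ∈ S1 R j, ∏ i, u (F i) (e i) v (h i) m

/-- the bound -/
noncomputable def bb : ℝ := ∏ i, (2 * ((F i).g : ℝ) + 1)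

theorem bb_pos : 0 < bb F := Finset.prod_pos fun i _ => by positivity

theorem pt_bd (j : ℕ) (v : HeightOneSpectrum (𝓞 K)) (h : QQ F v) (m : ℕ) :
    |pt F j v h m| ≤ (S1 R j).card * bb F := by
  unfold pt
  refine (Finset.abs_sum_le_sum_abs _ _).trans ((Finset.sum_le_card_nsmul _ _ (bb F)
    fun e _ => ?_).trans (by rw [nsmul_eq_mul]))
  rw [Finset.abs_prod]
  exact Finset.prod_le_prod (fun i _ => abs_nonneg _) fun i _ => u_bd (F i) (e i) v (h i) m

/-- the constant -/
theorem exists_CC : ∃ C : ℝ, 0 ≤ C ∧ ∀ (i : Fin R) (v : HeightOneSpectrum (𝓞 K)),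
    |av (fun h : (F i).H v => (F i).t v h 0)| ≤ C * (nm v : ℝ) ^ (-(1 / 2) : ℝ) ∧
    |av (fun h : (F i).H v => (F i).t v h 0 ^ 2) - 1| ≤ C / nm v ∧
    av (fun h : (F i).H v => 1 - (F i).gd v h) ≤ C / nm v := by
  choose C hC0 hC using fun i => (F i).exists_K
  refine ⟨∑ i, C i, Finset.sum_nonneg fun i _ => hC0 i, fun i v => ?_⟩
  have h1 : C i ≤ ∑ i, C i := Finset.single_le_sum (fun i _ => hC0 i) (Finset.mem_univ i)
  obtain ⟨h2, h3, h4⟩ := hC i v
  have hnv := nm_pos v
  exact ⟨h2.trans (mul_le_mul_of_nonneg_right h1 (by positivity)),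
    h3.trans (div_le_div_of_nonneg_right h1 hnv.le), h4.trans (div_le_div_of_nonneg_right h1 hnv.le)⟩

theorem gd_av {C : ℝ} {G : Fam K} {v : HeightOneSpectrum (𝓞 K)}
    (h : av (fun h : G.H v => 1 - G.gd v h) ≤ C / nm v) :
    1 - C / nm v ≤ av (fun h : G.H v => G.gd v h) := by
  rw [av_sub, av_const] at h
  linarith

/-- the mean -/
theorem mean_bd (j : ℕ) {C : ℝ} (hC : 0 ≤ C) {v : HeightOneSpectrum (𝓞 K)}
    (h1 : ∀ i : Fin R, |av (fun h : (F i).H v => (F i).t v h 0)| ≤ C * (nm v : ℝ) ^ (-(1 / 2) : ℝ)) :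
    |av (fun h : QQ F v => pt F j v h 0)| ≤
      (S1 R j).card * bb F * C * (nm v : ℝ) ^ (-(1 / 2) : ℝ) := by
  classical
  have h2 : av (fun h : QQ F v => pt F j v h 0) =
      ∑ e ∈ S1 R j, ∏ i, av (fun h : (F i).H v => u (F i) (e i) v h 0) := by
    unfold pt
    rw [av_sum]
    refine Finset.sum_congr rfl fun e _ => ?_
    exact av_prod fun i (h : (F i).H v) => u (F i) (e i) v h 0
  rw [h2]
  have hx : 0 ≤ C * (nm v : ℝ) ^ (-(1 / 2) : ℝ) := by
    have := nm_pos v
    positivity
  refine (Finset.abs_sum_le_sum_abs _ _).trans ((Finset.sum_le_card_nsmul _ _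
    (C * (nm v : ℝ) ^ (-(1 / 2) : ℝ) * bb F) fun e he => ?_).trans (le_of_eq ?_))
  · obtain ⟨-, -, i, hi⟩ := Finset.mem_filter.1 he
    refine prod_small (b := fun i => 2 * ((F i).g : ℝ) + 1) (fun i => ?_)
      (fun i => av_bd fun h => u_bd (F i) (e i) v h 0) hx ⟨i, ?_⟩
    · have : (0 : ℝ) ≤ (F i).g := Nat.cast_nonneg _
      linarith
    · have h3 : (fun h : (F i).H v => u (F i) (e i) v h 0) = fun h => (F i).t v h 0 := by
        funext h
        unfold u
        rw [if_pos hi]
      rw [h3]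
      exact h1 i
  · rw [nsmul_eq_mul]
    ring

/-- the second moment -/
theorem sq_bd (j : ℕ) {C : ℝ} (hC : 0 ≤ C) {v : HeightOneSpectrum (𝓞 K)} (hv : C / nm v ≤ 1)
    (h1 : ∀ i : Fin R, |av (fun h : (F i).H v => (F i).t v h 0)| ≤ C * (nm v : ℝ) ^ (-(1 / 2) : ℝ))
    (h2 : ∀ i : Fin R, |av (fun h : (F i).H v => (F i).t v h 0 ^ 2) - 1| ≤ C / nm v)
    (h3 : ∀ i : Fin R, av (fun h : (F i).H v => 1 - (F i).gd v h) ≤ C / nm v) :
    (S1 R j).card * (1 - R * (C / nm v)) -
      (S1 R j).card ^ 2 * (bb F ^ 2 * C * (nm v : ℝ) ^ (-(1 / 2) : ℝ)) ≤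
      av (fun h : QQ F v => pt F j v h 0 ^ 2) := by
  classical
  have hnv := nm_pos v
  set x : ℝ := C / nm v with hx
  have hx0 : 0 ≤ x := by positivity
  set ε : ℝ := C * (nm v : ℝ) ^ (-(1 / 2) : ℝ) with hε
  have hε0 : 0 ≤ ε := by positivity
  set X : (Fin R → Fin 3) → (Fin R → Fin 3) → ℝ := fun e e' =>
    ∏ i, av (fun h : (F i).H v => u (F i) (e i) v h 0 * u (F i) (e' i) v h 0) with hX
  have h4 : av (fun h : QQ F v => pt F j v h 0 ^ 2) = ∑ e ∈ S1 R j, ∑ e' ∈ S1 R j, X e e' := by
    have h5 : (fun h : QQ F v => pt F j v h 0 ^ 2) = fun h => ∑ e ∈ S1 R j, ∑ e' ∈ S1 R j,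
        ∏ i, (u (F i) (e i) v (h i) 0 * u (F i) (e' i) v (h i) 0) := by
      funext h
      unfold pt
      rw [sq, Finset.sum_mul_sum]
      refine Finset.sum_congr rfl fun e _ => Finset.sum_congr rfl fun e' _ => ?_
      rw [Finset.prod_mul_distrib]
    rw [h5, av_sum]
    refine Finset.sum_congr rfl fun e _ => ?_
    rw [av_sum]
    refine Finset.sum_congr rfl fun e' _ => ?_
    exact av_prod fun i (h : (F i).H v) => u (F i) (e i) v h 0 * u (F i) (e' i) v h 0
  have hb1 : ∀ i : Fin R, (1 : ℝ) ≤ (2 * ((F i).g : ℝ) + 1) ^ 2 := by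
    intro i
    have : (0 : ℝ) ≤ (F i).g := Nat.cast_nonneg _
    nlinarith
  have hb2 : ∏ i, (2 * ((F i).g : ℝ) + 1) ^ 2 = bb F ^ 2 := by
    unfold bb
    rw [Finset.prod_pow]
  have hub : ∀ (i : Fin R) (e e' : Fin 3),
      |av (fun h : (F i).H v => u (F i) e v h 0 * u (F i) e' v h 0)| ≤
        (2 * ((F i).g : ℝ) + 1) ^ 2 := by
    intro i e e'
    refine av_bd fun h => ?_
    rw [abs_mul, sq]
    exact mul_le_mul (u_bd _ _ _ _ _) (u_bd _ _ _ _ _) (abs_nonneg _) (by positivity)
  -- the diagonal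
  have hdiag : ∀ e, 1 - R * x ≤ X e e := by
    intro e
    have h5 : ∀ i, 1 - x ≤ av (fun h : (F i).H v => u (F i) (e i) v h 0 * u (F i) (e i) v h 0) := by
      intro i
      by_cases hi : e i = 1
      · have h6 : (fun h : (F i).H v => u (F i) (e i) v h 0 * u (F i) (e i) v h 0) =
            fun h => (F i).t v h 0 ^ 2 := by
          funext h
          unfold u
          rw [if_pos hi, sq]
        rw [h6]
        have := (abs_le.1 (h2 i)).1
        linarith
      · have h6 : (fun h : (F i).H v => u (F i) (e i) v h 0 * u (F i) (e i) v h 0) =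
            fun h => (F i).gd v h := by
          funext h
          unfold u
          rw [if_neg hi]
          rcases (F i).gd_01 v h with h0 | h0 <;> rw [h0] <;> norm_num
        rw [h6]
        exact gd_av (h3 i)
    have h6 : (1 - x) ^ R ≤ X e e := by
      have h7 : ∏ _i : Fin R, (1 - x) ≤ X e e :=
        Finset.prod_le_prod (fun i _ => by linarith) fun i _ => h5 i
      rw [Finset.prod_const, Finset.card_univ, Fintype.card_fin] at h7
      exact h7
    refine le_trans ?_ h6
    have h7 := one_add_mul_le_pow (a := -x) (by linarith) R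
    have h8 : (1 : ℝ) + (-x) = 1 - x := by ring
    rw [h8] at h7
    linarith
  -- all terms
  have hall : ∀ e e', -(ε * bb F ^ 2) ≤ X e e' := by
    intro e e'
    by_cases hee : ∃ i, ¬ (e i = 1 ↔ e' i = 1)
    · obtain ⟨i, hi⟩ := hee
      have h5 : |X e e'| ≤ ε * ∏ i, (2 * ((F i).g : ℝ) + 1) ^ 2 := by
        refine prod_small hb1 (fun i => hub i _ _) hε0 ⟨i, ?_⟩
        have h6 : (fun h : (F i).H v => u (F i) (e i) v h 0 * u (F i) (e' i) v h 0) =
            fun h => (F i).t v h 0 := by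
          funext h
          unfold u
          by_cases h7 : e i = 1
          · have h8 : e' i ≠ 1 := fun h0 => hi ⟨fun _ => h0, fun _ => h7⟩
            rw [if_pos h7, if_neg h8, mul_comm, (F i).gd_t]
          · have h8 : e' i = 1 := by
              by_contra h0
              exact hi ⟨fun h9 => absurd h9 h7, fun h9 => absurd h9 h0⟩
            rw [if_neg h7, if_pos h8, (F i).gd_t]
        rw [h6]
        exact h1 i
      rw [hb2] at h5
      exact (abs_le.1 h5).1
    · push Not at hee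
      have h5 : 0 ≤ X e e' := by
        refine Finset.prod_nonneg fun i _ => av_nonneg fun h => ?_
        unfold u
        by_cases h7 : e i = 1
        · rw [if_pos h7, if_pos ((hee i).1 h7)]
          exact mul_self_nonneg _
        · have h8 : e' i ≠ 1 := fun h0 => h7 ((hee i).2 h0)
          rw [if_neg h7, if_neg h8]
          exact mul_self_nonneg _
      have h6 : 0 ≤ ε * bb F ^ 2 := by positivity
      linarith
  rw [h4]
  have h5 : ∀ e ∈ S1 R j, (1 - R * x) - (S1 R j).card * (ε * bb F ^ 2) ≤ ∑ e' ∈ S1 R j, X e e' := by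
    intro e he
    have h6 : ∑ e' ∈ S1 R j, ((if e = e' then (1 - R * x) else 0) - ε * bb F ^ 2) ≤
        ∑ e' ∈ S1 R j, (X e e' + if e = e' then ε * bb F ^ 2 else 0) - 
          ∑ e' ∈ S1 R j, (if e = e' then ε * bb F ^ 2 else 0) := by
      rw [← Finset.sum_sub_distrib]
      refine Finset.sum_le_sum fun e' _ => ?_
      by_cases h7 : e = e'
      · rw [if_pos h7, if_pos h7, ← h7]
        have := hdiag e
        have h8 : 0 ≤ ε * bb F ^ 2 := by positivity
        linarith
      · rw [if_neg h7, if_neg h7]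
        have := hall e e'
        linarith
    rw [Finset.sum_sub_distrib, Finset.sum_ite_eq, if_pos he, Finset.sum_const, nsmul_eq_mul,
      Finset.sum_add_distrib, add_sub_cancel_right] at h6
    exact h6
  have h6 := Finset.sum_le_sum h5
  rw [Finset.sum_const, nsmul_eq_mul] at h6
  refine le_trans (le_of_eq ?_) h6
  rw [hε]
  ring

/-- the random Euler product -/
theorem exists_mdp {j : ℕ} (h0 : 0 < j) (hjR : j < R) :
    ∃ M : Mdl (HeightOneSpectrum (𝓞 K)) ((v : HeightOneSpectrum (𝓞 K)) → QQ F v) (P (QQ F)),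
      (∀ v, M.q v = nm v) ∧ ∀ v m ω, M.τ v m ω = pt F j v (ω v) m := by
  classical
  obtain ⟨C, hC0, hC⟩ := exists_CC F
  set N : ℝ := ((S1 R j).card : ℝ) with hN
  have hN1 : 1 ≤ N := by
    rw [hN]
    exact_mod_cast Finset.card_pos.2 (s1_ne h0 hjR)
  have hbb := bb_pos F
  have hmean : ∀ v, ∫ ω, pt F j v (ω v) 0 ∂(P (QQ F)) = av (fun h : QQ F v => pt F j v h 0) :=
    fun v => int_ev v fun h => pt F j v h 0
  refine ⟨{ q := fun v => nm v, τ := fun v m ω => pt F j v (ω v) m, B := N * bb F,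
            C := N * bb F * C,
            two_le := nm2, sum := fun x hx => nm_summable hx, div := nm_div K,
            meas := fun v m => ?_, bd := fun v m ω => pt_bd F j v (ω v) m, ind := ?_,
            mean := fun v => ?_, var := ?_ }, fun v => rfl, fun v m ω => rfl⟩
  · exact (Measurable.of_discrete (f := fun h : QQ F v => pt F j v h m)).comp
      (measurable_pi_apply v)
  · exact iIndepFun_infinitePi (P := fun v => uniformOn (Set.univ : Set (QQ F v)))
      (X := fun v h m => pt F j v h m) fun v => Measurable.of_discrete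
  · rw [hmean]
    exact mean_bd F j hC0 fun i => (hC i v).1
  · filter_upwards [nm_large (K := K) C, nm_large (K := K) (4 * R * C),
      nm_large (K := K) ((8 * N * bb F ^ 2 * C) ^ 2),
      nm_large (K := K) (8 * (N * bb F * C) ^ 2)] with v hv1 hv2 hv3 hv4
    have hnv := nm_pos v
    rw [hmean]
    set m : ℝ := av (fun h : QQ F v => pt F j v h 0) with hm
    have h1 : ∫ ω, (pt F j v (ω v) 0 - m) ^ 2 ∂(P (QQ F)) =
        av (fun h : QQ F v => pt F j v h 0 ^ 2) - m ^ 2 := by
      rw [int_ev v fun h => (pt F j v h 0 - m) ^ 2]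
      have h3 : (fun h : QQ F v => (pt F j v h 0 - m) ^ 2) = fun h =>
          (pt F j v h 0 ^ 2 - (2 * m) * pt F j v h 0) + m ^ 2 := by
        funext h
        ring
      rw [h3, av_add, av_sub, av_mul, av_const, ← hm]
      ring
    rw [h1]
    have hq : C / nm v ≤ 1 := by
      rw [div_le_one hnv]
      exact hv1.le
    have h2 := sq_bd F j hC0 hq (fun i => (hC i v).1) (fun i => (hC i v).2.1) fun i => (hC i v).2.2
    have h3 := mean_bd F j hC0 (v := v) fun i => (hC i v).1
    rw [← hm, ← hN] at h3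
    rw [← hN] at h2
    have h4 : R * (C / nm v) ≤ 1 / 4 := by
      rw [← mul_div_assoc, div_le_iff₀ hnv]
      linarith
    have hsq : ((nm v : ℝ) ^ (-(1 / 2) : ℝ)) = (√(nm v : ℝ))⁻¹ := by
      rw [Real.rpow_neg hnv.le, ← Real.sqrt_eq_rpow]
    have hsp : 0 < √(nm v : ℝ) := Real.sqrt_pos.2 hnv
    have h5 : N * (bb F ^ 2 * C * (nm v : ℝ) ^ (-(1 / 2) : ℝ)) ≤ 1 / 8 := by
      have h6 : 8 * N * bb F ^ 2 * C ≤ √(nm v : ℝ) := Real.le_sqrt_of_sq_le hv3.le
      rw [hsq, ← mul_assoc, ← div_eq_mul_inv, div_le_iff₀ hsp]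
      linarith
    have h6 : m ^ 2 ≤ 1 / 8 := by
      have h7 : m ^ 2 ≤ (N * bb F * C) ^ 2 / nm v := by
        have h8 := pow_le_pow_left₀ (abs_nonneg _) h3 2
        rw [sq_abs, mul_pow, hsq, inv_pow, Real.sq_sqrt hnv.le, ← div_eq_mul_inv] at h8
        exact h8
      refine h7.trans ?_
      rw [div_le_iff₀ hnv]
      linarith
    have h7 : N * (3 / 4) - N * (1 / 8) ≤ N * (1 - R * (C / nm v)) -
        N ^ 2 * (bb F ^ 2 * C * (nm v : ℝ) ^ (-(1 / 2) : ℝ)) := by
      have h8 : N ^ 2 * (bb F ^ 2 * C * (nm v : ℝ) ^ (-(1 / 2) : ℝ)) =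
          N * (N * (bb F ^ 2 * C * (nm v : ℝ) ^ (-(1 / 2) : ℝ))) := by ring
      rw [h8, ← mul_sub, ← mul_sub]
      refine mul_le_mul_of_nonneg_left ?_ (by linarith)
      linarith
    have h8 : 5 / 8 ≤ N * (3 / 4) - N * (1 / 8) := by linarith
    linarith

end

end Pool.Agent.W5h88.TP
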