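import Pool.Agent.W5h88.TP.Mdp

/-!
# The L-function of the product of curves
-/

set_option autoImplicit false
set_option linter.unusedSectionVars false
set_option maxHeartbeats 400000

open MeasureTheory ProbabilityTheory Filter Topology Polynomial Complex
open NumberField IsDedekindDomain Pool.Agent.H921R2.TatePole
open Pool.Agent.R409.RA (fieldQuot finiteQuot)

namespace Pool.Agent.W5h88.TP

open Pool.Agent.W5h26.AO Pool.Agent.W5h26.EP
open Pool.Agent.W5h88.NB (Mdl nm_div nm_large)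

section

variable {K : Type} [Field K] [NumberField K] {R : ℕ} (F : Fin R → Fam K)

/-- the product is smooth -/
noncomputable def Gd (v : HeightOneSpectrum (𝓞 K)) (h : QQ F v) : ℝ := ∏ i, (F i).gd v (h i)

theorem Gd_01 (v : HeightOneSpectrum (𝓞 K)) (h : QQ F v) : Gd F v h = 0 ∨ Gd F v h = 1 := by
  unfold Gd
  by_cases h1 : ∃ i, (F i).gd v (h i) = 0
  · obtain ⟨i, hi⟩ := h1
    exact Or.inl (Finset.prod_eq_zero (Finset.mem_univ i) hi)
  · push Not at h1
    exact Or.inr (Finset.prod_eq_one fun i _ => ((F i).gd_01 v (h i)).resolve_left (h1 i))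

theorem Gd_one {v : HeightOneSpectrum (𝓞 K)} {h : QQ F v} (h1 : Gd F v h = 1) (i : Fin R) :
    (F i).gd v (h i) = 1 := by
  refine ((F i).gd_01 v (h i)).resolve_left fun h0 => ?_
  have : Gd F v h = 0 := Finset.prod_eq_zero (Finset.mem_univ i) h0
  rw [this] at h1
  exact zero_ne_one h1

theorem Gd_zero {v : HeightOneSpectrum (𝓞 K)} {h : QQ F v} (h1 : Gd F v h = 0) :
    ∃ i, (F i).gd v (h i) = 0 := by
  by_contra h2
  push Not at h2
  have : Gd F v h = 1 := Finset.prod_eq_one fun i _ =>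
    ((F i).gd_01 v (h i)).resolve_left (h2 i)
  rw [this] at h1
  exact one_ne_zero h1

/-- no contribution of the bad places -/
theorem pt_zero {v : HeightOneSpectrum (𝓞 K)} {h : QQ F v} (h1 : Gd F v h = 0) (j m : ℕ) :
    pt F j v h m = 0 := by
  obtain ⟨i, hi⟩ := Gd_zero F h1
  unfold pt
  refine Finset.sum_eq_zero fun e _ => Finset.prod_eq_zero (Finset.mem_univ i) ?_
  unfold u
  split_ifs
  · rw [← (F i).gd_t, hi, zero_mul]
  · exact hi

/-- the average of the bad places -/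
theorem bad_avp {C : ℝ} {v : HeightOneSpectrum (𝓞 K)}
    (h : ∀ i : Fin R, av (fun h : (F i).H v => 1 - (F i).gd v h) ≤ C / nm v) :
    av (fun h : QQ F v => 1 - Gd F v h) ≤ R * (C / nm v) := by
  classical
  have h1 : ∀ h : QQ F v, 1 - Gd F v h ≤ ∑ i, (1 - (F i).gd v (h i)) := by
    intro h
    rcases Gd_01 F v h with h0 | h0
    · obtain ⟨i, hi⟩ := Gd_zero F h0
      rw [h0]
      have h2 : (1 : ℝ) - 0 = 1 - (F i).gd v (h i) := by rw [hi]
      rw [h2]
      refine Finset.single_le_sum (f := fun i => 1 - (F i).gd v (h i)) (fun i _ => ?_)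
        (Finset.mem_univ i)
      rcases (F i).gd_01 v (h i) with h3 | h3 <;> rw [h3] <;> norm_num
    · rw [h0, sub_self]
      refine Finset.sum_nonneg fun i _ => ?_
      rcases (F i).gd_01 v (h i) with h3 | h3 <;> rw [h3] <;> norm_num
  refine (av_mono h1).trans ?_
  rw [av_sum]
  refine (Finset.sum_le_card_nsmul _ _ (C / nm v) fun i _ => ?_).trans (by
    rw [Finset.card_univ, Fintype.card_fin, nsmul_eq_mul])
  have h2 : av (fun h' : QQ F v => 1 - (F i).gd v (h' i)) = av (fun h : (F i).H v => 1 - (F i).gd v h) := by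
    have h3 := av_prod (X := fun i => (F i).H v)
      (fun k (h : (F k).H v) => if k = i then 1 - (F k).gd v h else 1)
    have h4 : (fun x : QQ F v => ∏ k, (if k = i then 1 - (F k).gd v (x k) else 1)) =
        fun x => 1 - (F i).gd v (x i) := by
      funext x
      rw [Finset.prod_ite_eq' Finset.univ i, if_pos (Finset.mem_univ i)]
    rw [h4] at h3
    rw [h3, ← Finset.mul_prod_erase _ _ (Finset.mem_univ i)]
    rw [Finset.prod_eq_one fun k hk => ?_, mul_one]
    · congr 1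
      funext h
      rw [if_pos rfl]
    · have hk' := Finset.ne_of_mem_erase hk
      have : (fun h : (F k).H v => if k = i then 1 - (F k).gd v h else 1) = fun _ => (1 : ℝ) := by
        funext h
        rw [if_neg hk']
      rw [this, av_const]
  rw [h2]
  exact h i

/-- the points -/
abbrev Om : Type := (v : HeightOneSpectrum (𝓞 K)) → QQ F v

/-- the logarithm of the norm -/
noncomputable def lg (v : HeightOneSpectrum (𝓞 K)) : ℝ := Real.log (nm v)

theorem lg_pos (v : HeightOneSpectrum (𝓞 K)) : 0 < lg v := Real.log_pos (by linarith [nm2 v])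

theorem lg_two (v : HeightOneSpectrum (𝓞 K)) : Real.log 2 ≤ lg v :=
  Real.log_le_log (by norm_num) (nm2 v)

/-- the exponentials -/
noncomputable def Ex (w : ℂ) (p : HeightOneSpectrum (𝓞 K) × ℕ) : ℂ :=
  cexp (-w * (((p.2 + 1 : ℝ) * lg p.1 : ℝ) : ℂ))

theorem ex_norm (w : ℂ) (p : HeightOneSpectrum (𝓞 K) × ℕ) :
    ‖Ex w p‖ = Real.exp (-(w.re * ((p.2 + 1 : ℝ) * lg p.1))) := by
  unfold Ex
  rw [Complex.norm_exp]
  congr 1
  simp

theorem ex_diff (p : HeightOneSpectrum (𝓞 K) × ℕ) (w : ℂ) :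
    DifferentiableAt ℂ (fun w => Ex w p) w := by
  unfold Ex
  fun_prop

theorem exp_lg (v : HeightOneSpectrum (𝓞 K)) (x : ℝ) : Real.exp (-(x * lg v)) = (nm v : ℝ) ^ (-x) := by
  rw [Real.rpow_def_of_pos (nm_pos v)]
  congr 1
  unfold lg
  ring

/-- sums over the places and the exponents -/
theorem sum_pairs {θ : ℝ} (h0 : 0 < θ) {b : HeightOneSpectrum (𝓞 K) → ℝ} (hb : ∀ v, 0 ≤ b v)
    (h : Summable fun v => b v * Real.exp (-(θ * lg v))) :
    Summable fun p : HeightOneSpectrum (𝓞 K) × ℕ =>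
      b p.1 * Real.exp (-(θ * ((p.2 + 1 : ℝ) * lg p.1))) := by
  have hl2 : 0 < Real.log 2 := Real.log_pos (by norm_num)
  have h1 : Summable fun p : HeightOneSpectrum (𝓞 K) × ℕ => (b p.1 * Real.exp (-(θ * lg p.1))) *
      Real.exp (-(θ * Real.log 2)) ^ p.2 := by
    refine h.mul_of_nonneg (summable_geometric_of_lt_one (Real.exp_pos _).le ?_)
      (fun v => mul_nonneg (hb v) (Real.exp_pos _).le) fun m => by positivity
    rw [Real.exp_lt_one_iff]
    have : 0 < θ * Real.log 2 := by positivity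
    linarith
  refine Summable.of_nonneg_of_le (fun p => mul_nonneg (hb p.1) (Real.exp_pos _).le) (fun p => ?_) h1
  rw [← Real.exp_nat_mul, mul_assoc, ← Real.exp_add]
  refine mul_le_mul_of_nonneg_left (Real.exp_le_exp.2 ?_) (hb p.1)
  have h2 := lg_two p.1
  have h3 : θ * p.2 * Real.log 2 ≤ θ * p.2 * lg p.1 := mul_le_mul_of_nonneg_left h2 (by positivity)
  nlinarith

theorem sum_all {θ : ℝ} (h : 1 < θ) :
    Summable fun p : HeightOneSpectrum (𝓞 K) × ℕ => Real.exp (-(θ * ((p.2 + 1 : ℝ) * lg p.1))) := by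
  have h1 := sum_pairs (K := K) (θ := θ) (by linarith) (b := fun _ => 1) (fun _ => zero_le_one) (by
    refine (nm_summable (K := K) h).congr fun v => ?_
    rw [one_mul, exp_lg])
  simpa using h1

/-- the coefficients -/
noncomputable def cc (j : ℕ) (ω : Om F) (p : HeightOneSpectrum (𝓞 K) × ℕ) : ℝ :=
  (R.choose j : ℝ) * Gd F p.1 (ω p.1) + pt F j p.1 (ω p.1) p.2

/-- the logarithm of the L-function in the variable `w = s - j` -/
noncomputable def LL (j : ℕ) (ω : Om F) (w : ℂ) : ℂ :=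
  ∑' p : HeightOneSpectrum (𝓞 K) × ℕ, (cc F j ω p : ℂ) / (p.2 + 1) * Ex w p

/-- the bound of the coefficients -/
noncomputable def B0 (j : ℕ) : ℝ := (R.choose j : ℝ) + (S1 R j).card * bb F

theorem b0_nonneg (j : ℕ) : 0 ≤ B0 F j := by
  have := bb_pos F
  unfold B0
  positivity

theorem cc_bd (j : ℕ) (ω : Om F) (p : HeightOneSpectrum (𝓞 K) × ℕ) : |cc F j ω p| ≤ B0 F j := by
  unfold cc B0
  refine (abs_add_le _ _).trans (add_le_add ?_ (pt_bd F j p.1 (ω p.1) p.2))
  rw [abs_mul, Nat.abs_cast]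
  refine mul_le_of_le_one_right (Nat.cast_nonneg _) ?_
  rcases Gd_01 F p.1 (ω p.1) with h0 | h0 <;> rw [h0] <;> norm_num

theorem div_bd (x : ℝ) {B : ℝ} (hx : |x| ≤ B) (m : ℕ) : ‖(x : ℂ) / (m + 1)‖ ≤ B := by
  have h4 : (1 : ℝ) ≤ ‖((m : ℂ) + 1)‖ := by
    have : ((m : ℂ) + 1) = ((m + 1 : ℕ) : ℂ) := by push_cast; rfl
    rw [this, Complex.norm_natCast]
    exact_mod_cast Nat.succ_pos _
  rw [norm_div, Complex.norm_real, Real.norm_eq_abs]
  exact (div_le_self (abs_nonneg _) h4).trans hx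

theorem ll_sum (j : ℕ) (ω : Om F) {w : ℂ} (hw : 1 < w.re) :
    HasSum (fun p : HeightOneSpectrum (𝓞 K) × ℕ => (cc F j ω p : ℂ) / (p.2 + 1) * Ex w p)
      (LL F j ω w) := by
  refine (Summable.of_norm_bounded ((sum_all (K := K) hw).mul_left (B0 F j)) fun p => ?_).hasSum
  rw [norm_mul, ex_norm]
  exact mul_le_mul_of_nonneg_right (div_bd _ (cc_bd F j ω p) _) (Real.exp_pos _).le

/-- the closeness of the logarithms -/
theorem ll_close (j : ℕ) {σ : ℝ} (hσ : 1 < σ) {η : ℝ} (hη : 0 < η) :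
    ∃ T : Finset (HeightOneSpectrum (𝓞 K)), ∀ ω ω' : Om F, (∀ v ∈ T, ω v = ω' v) →
      ∀ w : ℂ, σ ≤ w.re → ‖LL F j ω w - LL F j ω' w‖ ≤ η := by
  classical
  have hE : Summable fun p : HeightOneSpectrum (𝓞 K) × ℕ =>
      2 * B0 F j * Real.exp (-(σ * ((p.2 + 1 : ℝ) * lg p.1))) := (sum_all (K := K) hσ).mul_left _
  have hB := b0_nonneg F j
  have h1 := tendsto_tsum_of_dominated_convergence
      (𝓕 := (atTop : Filter (Finset (HeightOneSpectrum (𝓞 K)))))
      (f := fun (T : Finset (HeightOneSpectrum (𝓞 K))) (p : HeightOneSpectrum (𝓞 K) × ℕ) =>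
        if p.1 ∈ T then 0 else 2 * B0 F j * Real.exp (-(σ * ((p.2 + 1 : ℝ) * lg p.1))))
      (g := fun _ => (0 : ℝ)) hE (fun p => by
        refine tendsto_const_nhds.congr' ?_
        filter_upwards [eventually_ge_atTop ({p.1} : Finset (HeightOneSpectrum (𝓞 K)))] with T hT
        rw [if_pos (hT (Finset.mem_singleton_self _))]) (Eventually.of_forall fun T p => by
        show ‖if p.1 ∈ T then (0 : ℝ) else
          2 * B0 F j * Real.exp (-(σ * ((p.2 + 1 : ℝ) * lg p.1)))‖ ≤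
          2 * B0 F j * Real.exp (-(σ * ((p.2 + 1 : ℝ) * lg p.1)))
        split_ifs
        · rw [norm_zero]
          positivity
        · rw [Real.norm_eq_abs, abs_of_nonneg (by positivity)])
  rw [tsum_zero] at h1
  obtain ⟨T, hT⟩ := (h1.eventually (gt_mem_nhds hη)).exists
  refine ⟨T, fun ω ω' hω w hw => ?_⟩
  have h2 := (ll_sum F j ω (w := w) (by linarith)).sub (ll_sum F j ω' (w := w) (by linarith))
  rw [← h2.tsum_eq]
  have hE' : Summable fun p : HeightOneSpectrum (𝓞 K) × ℕ => if p.1 ∈ T then (0 : ℝ) else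
      2 * B0 F j * Real.exp (-(σ * ((p.2 + 1 : ℝ) * lg p.1))) := by
    refine Summable.of_nonneg_of_le (fun p => ?_) (fun p => ?_) hE
    · split_ifs <;> positivity
    · split_ifs
      · positivity
      · exact le_rfl
  refine (tsum_of_norm_bounded hE'.hasSum fun p => ?_).trans hT.le
  by_cases hp : p.1 ∈ T
  · rw [if_pos hp]
    have : cc F j ω p = cc F j ω' p := by
      unfold cc
      rw [hω p.1 hp]
    rw [this, sub_self, norm_zero]
  · rw [if_neg hp, ← sub_mul, norm_mul, ex_norm]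
    refine mul_le_mul ?_ (Real.exp_le_exp.2 ?_) (Real.exp_pos _).le (by positivity)
    · refine (norm_sub_le _ _).trans ?_
      have h4 := div_bd _ (cc_bd F j ω p) p.2
      have h5 := div_bd _ (cc_bd F j ω' p) p.2
      linarith
    · have h6 : 0 ≤ ((p.2 + 1 : ℝ) * lg p.1) := by
        have := lg_pos p.1
        positivity
      have := mul_le_mul_of_nonneg_right hw h6
      linarith

variable (K) in
/-- the prime powers from the exponent two on -/
noncomputable def RZ (w : ℂ) : ℂ :=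
  ∑' p : HeightOneSpectrum (𝓞 K) × ℕ, 1 / ((p.2 : ℂ) + 2) * (Ex w (p.1, 0) * Ex w p)

theorem rz_bd {σ : ℝ} (hσ : 1 / 2 < σ) : ∃ u : HeightOneSpectrum (𝓞 K) × ℕ → ℝ, Summable u ∧
    ∀ p (w : ℂ), σ < w.re → ‖1 / ((p.2 : ℂ) + 2) * (Ex w (p.1, 0) * Ex w p)‖ ≤ u p := by
  refine ⟨fun p => Real.exp (-(σ * lg p.1)) * Real.exp (-(σ * ((p.2 + 1 : ℝ) * lg p.1))),
    sum_pairs (K := K) (θ := σ) (by linarith) (b := fun v => Real.exp (-(σ * lg v)))
      (fun v => (Real.exp_pos _).le) ?_, fun p w hw => ?_⟩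
  · refine (nm_summable (K := K) (x := 2 * σ) (by linarith)).congr fun v => ?_
    rw [← exp_lg, ← Real.exp_add]
    congr 1
    ring
  · rw [norm_mul, norm_mul, ex_norm, ex_norm]
    have h1 : ‖1 / ((p.2 : ℂ) + 2)‖ ≤ 1 := by
      have h4 : (1 : ℝ) ≤ ‖((p.2 : ℂ) + 2)‖ := by
        have : ((p.2 : ℂ) + 2) = ((p.2 + 2 : ℕ) : ℂ) := by push_cast; rfl
        rw [this, Complex.norm_natCast]
        exact_mod_cast Nat.succ_pos _
      rw [norm_div, norm_one]
      exact (div_le_one (by linarith)).2 h4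
    have hl := lg_pos p.1
    refine (mul_le_of_le_one_left (by positivity) h1).trans ?_
    refine mul_le_mul (Real.exp_le_exp.2 ?_) (Real.exp_le_exp.2 ?_) (Real.exp_pos _).le
      (Real.exp_pos _).le
    · simp only [CharP.cast_eq_zero, zero_add, one_mul]
      nlinarith
    · have h6 : 0 ≤ ((p.2 + 1 : ℝ) * lg p.1) := by positivity
      nlinarith

theorem rz_diff : DifferentiableOn ℂ (RZ K) {w : ℂ | (1 / 2 : ℝ) < w.re} := by
  unfold RZ
  refine hol_tsum (fun p w _ => ?_) fun σ hσ => rz_bd hσ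
  exact ((ex_diff _ w).mul (ex_diff p w)).const_mul _

/-- the logarithm of the zeta function -/
theorem zz_eq {w : ℂ} (hw : 1 < w.re) :
    HasSum (fun p : HeightOneSpectrum (𝓞 K) × ℕ => 1 / ((p.2 : ℂ) + 1) * Ex w p)
      (PZ K w + RZ K w) := by
  have hs : Summable fun p : HeightOneSpectrum (𝓞 K) × ℕ => 1 / ((p.2 : ℂ) + 1) * Ex w p := by
    refine Summable.of_norm_bounded (sum_all (K := K) hw) fun p => ?_
    rw [norm_mul, ex_norm]
    refine mul_le_of_le_one_left (Real.exp_pos _).le ?_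
    have := div_bd 1 (B := 1) (by norm_num) p.2
    simpa using this
  have h1 := hs.hasSum.prod_fiberwise fun v => (hs.prod_factor v).hasSum
  have hsR : Summable fun p : HeightOneSpectrum (𝓞 K) × ℕ =>
      1 / ((p.2 : ℂ) + 2) * (Ex w (p.1, 0) * Ex w p) := by
    obtain ⟨u, hu, hub⟩ := rz_bd (K := K) (σ := 1) (by norm_num)
    exact Summable.of_norm_bounded hu fun p => hub p w hw
  have h2 := hsR.hasSum.prod_fiberwise fun v => (hsR.prod_factor v).hasSum
  have h3 : HasSum (fun v : HeightOneSpectrum (𝓞 K) => ∑' m : ℕ, 1 / ((m : ℂ) + 1) * Ex w (v, m))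
      (PZ K w + RZ K w) := by
    refine ((pz_sum hw).add h2).congr_fun fun v => ?_
    rw [(hs.prod_factor v).tsum_eq_zero_add]
    congr 1
    · unfold Ex lg
      rw [Complex.cpow_def_of_ne_zero (nmC_ne v), ← Complex.natCast_log]
      simp
      ring_nf
    · refine tsum_congr fun m => ?_
      unfold Ex
      rw [← Complex.exp_add]
      simp only
      congr 1
      · push_cast
        ring
      · congr 1
        push_cast
        ring
  have h4 := h3.unique h1
  rw [h4]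
  exact hs.hasSum

/-- the bad part -/
noncomputable def WW (ω : Om F) (w : ℂ) : ℂ :=
  ∑' p : HeightOneSpectrum (𝓞 K) × ℕ, ((1 - Gd F p.1 (ω p.1) : ℝ) : ℂ) / (p.2 + 1) * Ex w p

theorem bad_nonneg (v : HeightOneSpectrum (𝓞 K)) (h : QQ F v) : 0 ≤ 1 - Gd F v h := by
  rcases Gd_01 F v h with h0 | h0 <;> rw [h0] <;> norm_num

theorem bad_le (v : HeightOneSpectrum (𝓞 K)) (h : QQ F v) : |1 - Gd F v h| ≤ 1 := by
  rcases Gd_01 F v h with h0 | h0 <;> rw [h0] <;> norm_num

theorem ww_bd {ω : Om F} (hω : Summable fun v => (1 - Gd F v (ω v)) * Real.exp (-(1 / 2 * lg v)))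
    {σ : ℝ} (hσ : 1 / 2 < σ) : ∃ u : HeightOneSpectrum (𝓞 K) × ℕ → ℝ, Summable u ∧
    ∀ (p : HeightOneSpectrum (𝓞 K) × ℕ) (w : ℂ), σ < w.re →
      ‖((1 - Gd F p.1 (ω p.1) : ℝ) : ℂ) / (p.2 + 1) * Ex w p‖ ≤ u p := by
  refine ⟨fun p => (1 - Gd F p.1 (ω p.1)) * Real.exp (-(1 / 2 * ((p.2 + 1 : ℝ) * lg p.1))),
    sum_pairs (K := K) (θ := 1 / 2) (b := fun v => 1 - Gd F v (ω v)) (by norm_num)
      (fun v => bad_nonneg F v (ω v)) hω, fun p w hw => ?_⟩
  rw [norm_mul, ex_norm]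
  refine mul_le_mul (div_bd _ ?_ _) (Real.exp_le_exp.2 ?_) (Real.exp_pos _).le
    (bad_nonneg F p.1 (ω p.1))
  · exact (abs_of_nonneg (bad_nonneg F p.1 (ω p.1))).le
  · have h6 : 0 ≤ ((p.2 + 1 : ℝ) * lg p.1) := by
      have := lg_pos p.1
      positivity
    nlinarith

theorem ww_diff {ω : Om F} (hω : Summable fun v => (1 - Gd F v (ω v)) * Real.exp (-(1 / 2 * lg v))) :
    DifferentiableOn ℂ (WW F ω) {w : ℂ | (1 / 2 : ℝ) < w.re} := by
  unfold WW
  refine hol_tsum (fun p w _ => ?_) fun σ hσ => ww_bd F hω hσ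
  exact (ex_diff p w).const_mul _

/-- the decomposition of the logarithm -/
theorem ll_eq {j : ℕ} (M : Mdl (HeightOneSpectrum (𝓞 K)) (Om F) (P (QQ F)))
    (hq : ∀ v, M.q v = nm v) (hτ : ∀ v m ω, M.τ v m ω = pt F j v (ω v) m) (ω : Om F) {w : ℂ}
    (hw : 1 < w.re) :
    LL F j ω w = (R.choose j : ℂ) * (PZ K w + RZ K w) - (R.choose j : ℂ) * WW F ω w + M.Lam ω w := by
  have h1 := (zz_eq (K := K) hw).mul_left (R.choose j : ℂ)
  have h2 : HasSum (fun p : HeightOneSpectrum (𝓞 K) × ℕ =>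
      ((1 - Gd F p.1 (ω p.1) : ℝ) : ℂ) / (p.2 + 1) * Ex w p) (WW F ω w) := by
    refine (Summable.of_norm_bounded (sum_all (K := K) hw) fun p => ?_).hasSum
    rw [norm_mul, ex_norm]
    exact mul_le_of_le_one_left (Real.exp_pos _).le (div_bd _ (bad_le F _ _) _)
  have h3 : HasSum (fun p : HeightOneSpectrum (𝓞 K) × ℕ =>
      ((pt F j p.1 (ω p.1) p.2 : ℝ) : ℂ) / (p.2 + 1) * Ex w p) (M.Lam ω w) := by
    have h4 : ∀ p : HeightOneSpectrum (𝓞 K) × ℕ, M.cf 0 ω p * cexp (-w * M.fr 0 p) =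
        ((pt F j p.1 (ω p.1) p.2 : ℝ) : ℂ) / (p.2 + 1) * Ex w p := by
      intro p
      unfold Mdl.cf Mdl.fr Mdl.l Ex lg
      rw [hτ, hq]
      simp
    have h5 : Summable fun p : HeightOneSpectrum (𝓞 K) × ℕ =>
        ((pt F j p.1 (ω p.1) p.2 : ℝ) : ℂ) / (p.2 + 1) * Ex w p := by
      refine Summable.of_norm_bounded ((sum_all (K := K) hw).mul_left ((S1 R j).card * bb F))
        fun p => ?_
      rw [norm_mul, ex_norm]
      exact mul_le_mul_of_nonneg_right (div_bd _ (pt_bd F j _ _ _) _) (Real.exp_pos _).le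
    unfold Mdl.Lam
    rw [tsum_congr h4]
    exact h5.hasSum
  have h6 := (h1.sub (h2.mul_left (R.choose j : ℂ))).add h3
  refine ((ll_sum F j ω hw).unique (h6.congr_fun fun p => ?_))
  unfold cc
  push_cast
  ring

/-- almost every point has few bad places -/
theorem bad_ae : ∀ᵐ ω ∂(P (QQ F)),
    Summable fun v => (1 - Gd F v (ω v)) * Real.exp (-(1 / 2 * lg v)) := by
  obtain ⟨C, hC0, hC⟩ := exists_CC F
  set f : HeightOneSpectrum (𝓞 K) → Om F → ℝ := fun v ω =>
    (1 - Gd F v (ω v)) * Real.exp (-(1 / 2 * lg v)) with hf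
  have hf0 : ∀ v ω, 0 ≤ f v ω := fun v ω => mul_nonneg (bad_nonneg F v (ω v)) (Real.exp_pos _).le
  have hfm : ∀ v, Measurable (f v) := fun v =>
    (Measurable.of_discrete (f := fun h : QQ F v => (1 - Gd F v h) * Real.exp (-(1 / 2 * lg v)))).comp
      (measurable_pi_apply v)
  have hfi : ∀ v, Integrable (f v) (P (QQ F)) := fun v => Pool.Agent.W5h88.NB.int_of_bd (hfm v)
    (C := 1) fun ω => by
      rw [Real.norm_eq_abs, abs_of_nonneg (hf0 v ω)]
      have h1 : Real.exp (-(1 / 2 * lg v)) ≤ 1 := by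
        rw [Real.exp_le_one_iff]
        have := lg_pos v
        linarith
      have h2 := (abs_le.1 (bad_le F v (ω v))).2
      calc _ ≤ (1 : ℝ) * 1 := mul_le_mul h2 h1 (Real.exp_pos _).le zero_le_one
        _ = 1 := one_mul 1
  have hint : ∀ v, ∫ ω, f v ω ∂(P (QQ F)) ≤ R * C * (nm v : ℝ) ^ (-(3 / 2) : ℝ) := by
    intro v
    have h1 : ∫ ω, f v ω ∂(P (QQ F)) = av (fun h : QQ F v => 1 - Gd F v h) *
        Real.exp (-(1 / 2 * lg v)) := by
      rw [hf]
      simp only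
      rw [int_ev v fun h : QQ F v => (1 - Gd F v h) * Real.exp (-(1 / 2 * lg v))]
      have h4 := av_mul (Real.exp (-(1 / 2 * lg v))) fun h : QQ F v => 1 - Gd F v h
      rw [mul_comm (av fun h : QQ F v => 1 - Gd F v h), ← h4]
      congr 1
      funext h
      rw [mul_comm]
    rw [h1, exp_lg]
    have h2 := bad_avp F (v := v) fun i => (hC i v).2.2
    refine (mul_le_mul_of_nonneg_right h2 (by have := nm_pos v; positivity)).trans (le_of_eq ?_)
    have h3 : (nm v : ℝ) ^ (-(3 / 2) : ℝ) = (nm v : ℝ)⁻¹ * (nm v : ℝ) ^ (-(1 / 2) : ℝ) := by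
      rw [← Real.rpow_neg_one, ← Real.rpow_add (nm_pos v)]
      norm_num
    rw [h3]
    ring
  have hsum : Summable fun v => ∫ ω, f v ω ∂(P (QQ F)) :=
    Summable.of_nonneg_of_le (fun v => integral_nonneg fun ω => hf0 v ω) hint
      ((nm_summable (K := K) (x := 3 / 2) (by norm_num)).mul_left _)
  have h1 : ∫⁻ ω, ∑' v, ENNReal.ofReal (f v ω) ∂(P (QQ F)) ≠ ⊤ := by
    rw [lintegral_tsum fun v => (hfm v).ennreal_ofReal.aemeasurable]
    have h2 : ∀ v, ∫⁻ ω, ENNReal.ofReal (f v ω) ∂(P (QQ F)) =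
        ENNReal.ofReal (∫ ω, f v ω ∂(P (QQ F))) := fun v =>
      (ofReal_integral_eq_lintegral_ofReal (hfi v) (ae_of_all _ (hf0 v))).symm
    rw [tsum_congr h2]
    exact hsum.tsum_ofReal_ne_top
  filter_upwards [ae_lt_top (Measurable.tsum fun v => (hfm v).ennreal_ofReal) h1] with ω hω
  have h2 := ENNReal.summable_toReal hω.ne
  refine h2.congr fun v => ?_
  rw [ENNReal.toReal_ofReal (hf0 v ω)]

/-- **The continuation at almost every point.** -/
theorem cont_ae {j : ℕ} (M : Mdl (HeightOneSpectrum (𝓞 K)) (Om F) (P (QQ F)))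
    (hq : ∀ v, M.q v = nm v) (hτ : ∀ v m ω, M.τ v m ω = pt F j v (ω v) m) :
    ∀ᵐ ω ∂(P (QQ F)), ∃ H : ℂ → ℂ, DifferentiableOn ℂ H {w : ℂ | (1 / 2 : ℝ) < w.re} ∧
      (∀ w : ℂ, 1 ≤ w.re → H w ≠ 0) ∧
      ∀ w : ℂ, 1 < w.re → (w - 1) ^ (R.choose j) * cexp (LL F j ω w) = H w := by
  obtain ⟨V, hV, hV0, hVe⟩ := exists_V K
  filter_upwards [M.main_ae, bad_ae F] with ω hω hω2
  obtain ⟨G, hG, hGe, -⟩ := hω
  refine ⟨fun w => V w ^ (R.choose j) *
    cexp ((R.choose j : ℂ) * RZ K w - (R.choose j : ℂ) * WW F ω w + G w), ?_, ?_, ?_⟩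
  · have h1 := (rz_diff (K := K)).const_mul (R.choose j : ℂ)
    have h2 := (ww_diff F hω2).const_mul (R.choose j : ℂ)
    exact (hV.pow _).mul ((h1.sub h2).add hG).cexp
  · intro w hw
    exact mul_ne_zero (pow_ne_zero _ (hV0 w hw)) (Complex.exp_ne_zero _)
  · intro w hw
    have hne : w - 1 ≠ 0 := by
      intro h0
      have := congrArg Complex.re (sub_eq_zero.1 h0)
      rw [Complex.one_re] at this
      linarith
    have h1 : V w = (w - 1) * cexp (PZ K w) := by
      rw [hVe w hw]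
      field_simp
    show (w - 1) ^ (R.choose j) * cexp (LL F j ω w) = V w ^ (R.choose j) *
      cexp ((R.choose j : ℂ) * RZ K w - (R.choose j : ℂ) * WW F ω w + G w)
    rw [ll_eq F M hq hτ ω hw, hGe w hw]
    rw [h1, mul_pow, ← Complex.exp_nat_mul, mul_assoc, ← Complex.exp_add]
    congr 2
    ring

end

end Pool.Agent.W5h88.TP
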